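import Pool.Agent.KZ.Defs

set_option autoImplicit false

namespace Pool.Agent.KZ

variable {Γ : Type*} [Group Γ]

theorem B_single_single (φ : Γ → ℝ) (g h : Γ) (a b : ℝ) :
    B φ (Finsupp.single g a) (Finsupp.single h b) = a * b * φ (g⁻¹ * h) := by
  unfold B
  rw [Finsupp.linearCombination_single, LinearMap.smul_apply, Finsupp.linearCombination_single,
    smul_eq_mul, smul_eq_mul]
  ring

omit [Group Γ] in
theorem tot_single (g : Γ) (a : ℝ) : tot (Finsupp.single g a) = a := by
  unfold tot
  rw [Finsupp.linearCombination_single, smul_eq_mul, mul_one]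

theorem L_single (φ : Γ → ℝ) (g : Γ) (a : ℝ) :
    L φ (Finsupp.single g a) = a * (2 * φ 1 - φ g - φ g⁻¹) := by
  unfold L
  rw [Finsupp.linearCombination_single, smul_eq_mul]

theorem vec_single {E : Type*} [AddCommGroup E] [Module ℝ E] (A : Γ → E) (x g : Γ) (a : ℝ) :
    vec A x (Finsupp.single g a) = a • A (x * g) := by
  unfold vec
  rw [Finsupp.linearCombination_single]

theorem B_comm_of_symm {φ : Γ → ℝ} (hφ : ∀ g, φ g⁻¹ = φ g) (ξ η : Γ →₀ ℝ) :
    B φ ξ η = B φ η ξ := by
  induction ξ using Finsupp.induction_linear with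
  | zero => simp
  | add a b ha hb => rw [map_add, LinearMap.add_apply, ha, hb, map_add]
  | single g a =>
    induction η using Finsupp.induction_linear with
    | zero => simp
    | add c d hc hd => rw [map_add, hc, hd, map_add, LinearMap.add_apply]
    | single h b =>
      rw [B_single_single, B_single_single, ← hφ (g⁻¹ * h), mul_inv_rev, inv_inv]
      ring

theorem B_add_fun (φ ψ : Γ → ℝ) (ξ η : Γ →₀ ℝ) :
    B (fun g => φ g + ψ g) ξ η = B φ ξ η + B ψ ξ η := by
  induction ξ using Finsupp.induction_linear with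
  | zero => simp
  | add a b ha hb =>
    rw [map_add, LinearMap.add_apply, ha, hb, map_add, map_add, LinearMap.add_apply,
      LinearMap.add_apply]
    ring
  | single g a =>
    induction η using Finsupp.induction_linear with
    | zero => simp
    | add c d hc hd => rw [map_add, hc, hd, map_add, map_add]; ring
    | single h b =>
      rw [B_single_single, B_single_single, B_single_single]
      ring

theorem B_smul_fun (c : ℝ) (φ : Γ → ℝ) (ξ η : Γ →₀ ℝ) :
    B (fun g => c * φ g) ξ η = c * B φ ξ η := by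
  induction ξ using Finsupp.induction_linear with
  | zero => simp
  | add a b ha hb =>
    rw [map_add, LinearMap.add_apply, ha, hb, map_add, LinearMap.add_apply]
    ring
  | single g a =>
    induction η using Finsupp.induction_linear with
    | zero => simp
    | add c' d hc hd => rw [map_add, hc, hd, map_add]; ring
    | single h b =>
      rw [B_single_single, B_single_single]
      ring

theorem T_one (F : Finset Γ) (φ : Γ → ℝ) :
    T F φ 1 = (F.card : ℝ)⁻¹ * ((F.card : ℝ)⁻¹ * ∑ s ∈ F, ∑ t ∈ F, φ (s⁻¹ * t)) := by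
  unfold T
  simp only [mul_one]

section avg

variable {E : Type*} [AddCommGroup E] [Module ℝ E]

theorem M_add (F : Finset Γ) (f g : Γ → E) :
    M F (fun x => f x + g x) = fun x => M F f x + M F g x := by
  funext x
  unfold M
  rw [Finset.sum_add_distrib, smul_add]

theorem M_sub (F : Finset Γ) (f g : Γ → E) :
    M F (fun x => f x - g x) = fun x => M F f x - M F g x := by
  funext x
  unfold M
  rw [Finset.sum_sub_distrib, smul_sub]

omit [Group Γ] in
theorem cardR_ne {F : Finset Γ} (hF : F.Nonempty) : (F.card : ℝ) ≠ 0 := by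
  have : 0 < F.card := Finset.card_pos.2 hF
  positivity

theorem M_const {F : Finset Γ} (hF : F.Nonempty) (c : E) :
    M F (fun _ => c) = fun _ => c := by
  funext x
  unfold M
  rw [Finset.sum_const, ← Nat.cast_smul_eq_nsmul ℝ, smul_smul, inv_mul_cancel₀ (cardR_ne hF),
    one_smul]

theorem M_iter_add (F : Finset Γ) (n : ℕ) (f g : Γ → E) :
    (M F)^[n] (fun x => f x + g x) = fun x => (M F)^[n] f x + (M F)^[n] g x := by
  induction n with
  | zero => rfl
  | succ n ih =>
    rw [Function.iterate_succ_apply', ih, M_add, Function.iterate_succ_apply',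
      Function.iterate_succ_apply']

theorem M_iter_sub (F : Finset Γ) (n : ℕ) (f g : Γ → E) :
    (M F)^[n] (fun x => f x - g x) = fun x => (M F)^[n] f x - (M F)^[n] g x := by
  induction n with
  | zero => rfl
  | succ n ih =>
    rw [Function.iterate_succ_apply', ih, M_sub, Function.iterate_succ_apply',
      Function.iterate_succ_apply']

theorem M_iter_const {F : Finset Γ} (hF : F.Nonempty) (n : ℕ) (c : E) :
    (M F)^[n] (fun _ => c) = fun _ => c := by
  induction n with
  | zero => rfl
  | succ n ih => rw [Function.iterate_succ_apply', ih, M_const hF]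

theorem M_map {E' : Type*} [AddCommGroup E'] [Module ℝ E'] (F : Finset Γ) (l : E →ₗ[ℝ] E')
    (f : Γ → E) : M F (fun x => l (f x)) = fun x => l (M F f x) := by
  funext x
  unfold M
  rw [map_smul, map_sum]

/-- iterated averages commute with linear maps -/
theorem M_iter_map {E' : Type*} [AddCommGroup E'] [Module ℝ E']
    (F : Finset Γ) (n : ℕ) (l : E →ₗ[ℝ] E') (f : Γ → E) :
    (M F)^[n] (fun x => l (f x)) = fun x => l ((M F)^[n] f x) := by
  induction n with
  | zero => rfl
  | succ n ih =>
    rw [Function.iterate_succ_apply', ih, M_map, Function.iterate_succ_apply']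

theorem M_left (F : Finset Γ) (f : Γ → E) (a : Γ) :
    M F (fun y => f (a * y)) = fun x => M F f (a * x) := by
  funext x
  unfold M
  simp only [mul_assoc]

theorem M_iter_left_fun (F : Finset Γ) (n : ℕ) (f : Γ → E) (a : Γ) :
    (M F)^[n] (fun y => f (a * y)) = fun x => (M F)^[n] f (a * x) := by
  induction n with
  | zero => rfl
  | succ n ih =>
    rw [Function.iterate_succ_apply', ih, M_left, Function.iterate_succ_apply']

/-- iterated averages commute with left translations -/
theorem M_iter_left (F : Finset Γ) (n : ℕ) (f : Γ → E) (a x : Γ) :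
    (M F)^[n] (fun y => f (a * y)) x = (M F)^[n] f (a * x) := by
  rw [M_iter_left_fun]

end avg

theorem M_mono {F : Finset Γ} {f g : Γ → ℝ} (h : ∀ x, f x ≤ g x) (x : Γ) :
    M F f x ≤ M F g x := by
  unfold M
  rw [smul_eq_mul, smul_eq_mul]
  exact mul_le_mul_of_nonneg_left (Finset.sum_le_sum fun s _ => h _) (by positivity)

theorem M_iter_mono {F : Finset Γ} {f g : Γ → ℝ} (n : ℕ) (h : ∀ x, f x ≤ g x) (x : Γ) :
    (M F)^[n] f x ≤ (M F)^[n] g x := by
  induction n generalizing x with
  | zero => exact h x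
  | succ n ih =>
    rw [Function.iterate_succ_apply', Function.iterate_succ_apply']
    exact M_mono ih x

theorem M_iter_le {F : Finset Γ} (hF : F.Nonempty) {f : Γ → ℝ} {c : ℝ} (n : ℕ)
    (h : ∀ x, f x ≤ c) (x : Γ) : (M F)^[n] f x ≤ c := by
  have h1 := M_iter_mono (F := F) n (g := fun _ => c) h x
  rwa [M_iter_const hF] at h1

theorem M_iter_nonneg {F : Finset Γ} {f : Γ → ℝ} (n : ℕ) (h : ∀ x, 0 ≤ f x) (x : Γ) :
    0 ≤ (M F)^[n] f x := by
  induction n generalizing x with
  | zero => exact h x
  | succ n ih =>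
    rw [Function.iterate_succ_apply']
    unfold M
    rw [smul_eq_mul]
    exact mul_nonneg (by positivity) (Finset.sum_nonneg fun s _ => ih _)

theorem norm_M_le {E : Type*} [SeminormedAddCommGroup E] [NormedSpace ℝ E] {F : Finset Γ}
    (hF : F.Nonempty) {f : Γ → E} {c : ℝ} (h : ∀ x, ‖f x‖ ≤ c) (x : Γ) :
    ‖M F f x‖ ≤ c := by
  unfold M
  rw [norm_smul, norm_inv, RCLike.norm_natCast]
  have h1 : ‖∑ s ∈ F, f (x * s)‖ ≤ F.card * c := by
    refine (norm_sum_le _ _).trans ?_
    refine (Finset.sum_le_sum fun s _ => h (x * s)).trans ?_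
    rw [Finset.sum_const, nsmul_eq_mul]
  calc (F.card : ℝ)⁻¹ * ‖∑ s ∈ F, f (x * s)‖ ≤ (F.card : ℝ)⁻¹ * (F.card * c) :=
        mul_le_mul_of_nonneg_left h1 (by positivity)
    _ = c := by rw [← mul_assoc, inv_mul_cancel₀ (cardR_ne hF), one_mul]

theorem norm_M_iter_le {E : Type*} [SeminormedAddCommGroup E] [NormedSpace ℝ E] {F : Finset Γ}
    (hF : F.Nonempty) {f : Γ → E} {c : ℝ} (n : ℕ) (h : ∀ x, ‖f x‖ ≤ c) (x : Γ) :
    ‖(M F)^[n] f x‖ ≤ c := by
  induction n generalizing x with
  | zero => exact h x
  | succ n ih =>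
    rw [Function.iterate_succ_apply']
    exact norm_M_le hF ih x

end Pool.Agent.KZ
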