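import Pool.Agent.KZ.Defs

/-!
Project KZ (MP_e3aa4b_al), row KZ-6: Schoenberg's theorem.
-/

set_option autoImplicit false

namespace Pool.Agent.KZ

open Filter Topology

section kernels
variable {Γ : Type*}

/-- positive kernels -/
def SchKer (K : Γ → Γ → ℝ) : Prop :=
  (∀ g h, K h g = K g h) ∧
    ∀ ξ : Γ →₀ ℝ, 0 ≤ ∑ g ∈ ξ.support, ∑ h ∈ ξ.support, ξ g * K g h * ξ h

theorem schKer_iff (K : Γ → Γ → ℝ) : SchKer K ↔ (Matrix.of K).PosSemidef := by
  constructor
  · rintro ⟨h1, h2⟩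
    refine ⟨?_, fun ξ => ?_⟩
    · ext g h
      simp [h1 g h]
    · have := h2 ξ
      simpa only [Finsupp.sum, star_trivial, Matrix.of_apply] using this
  · rintro ⟨h1, h2⟩
    refine ⟨fun g h => ?_, fun ξ => ?_⟩
    · have := congrFun (congrFun h1 g) h
      simpa using this
    · have := h2 ξ
      simpa only [Finsupp.sum, star_trivial, Matrix.of_apply] using this

theorem SchKer.mul {K K' : Γ → Γ → ℝ} (h : SchKer K) (h' : SchKer K') :
    SchKer (fun g h => K g h * K' g h) := by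
  rw [schKer_iff] at h h' ⊢
  exact h.hadamard h'

theorem schKer_rank_one (u : Γ → ℝ) : SchKer (fun g h => u g * u h) := by
  refine ⟨fun g h => mul_comm _ _, fun ξ => ?_⟩
  have e : (∑ g ∈ ξ.support, ∑ h ∈ ξ.support, ξ g * (u g * u h) * ξ h) =
      (∑ g ∈ ξ.support, ξ g * u g) ^ 2 := by
    rw [sq, Finset.sum_mul_sum]
    refine Finset.sum_congr rfl (fun g _ => Finset.sum_congr rfl (fun h _ => ?_))
    ring
  rw [e]
  exact sq_nonneg _

theorem SchKer.pow {K : Γ → Γ → ℝ} (hK : SchKer K) (n : ℕ) :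
    SchKer (fun g h => K g h ^ n) := by
  induction n with
  | zero =>
    have h := schKer_rank_one (fun _ : Γ => (1 : ℝ))
    simpa using h
  | succ n ih =>
    have h := ih.mul hK
    simpa only [pow_succ] using h

theorem SchKer.smul {K : Γ → Γ → ℝ} (hK : SchKer K) {t : ℝ} (ht : 0 ≤ t) :
    SchKer (fun g h => t * K g h) := by
  refine ⟨fun g h => by beta_reduce; rw [hK.1 g h], fun ξ => ?_⟩
  have e : (∑ g ∈ ξ.support, ∑ h ∈ ξ.support, ξ g * (t * K g h) * ξ h) =
      t * ∑ g ∈ ξ.support, ∑ h ∈ ξ.support, ξ g * K g h * ξ h := by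
    rw [Finset.mul_sum]
    refine Finset.sum_congr rfl (fun g _ => ?_)
    rw [Finset.mul_sum]
    refine Finset.sum_congr rfl (fun h _ => ?_)
    ring
  rw [e]
  exact mul_nonneg ht (hK.2 ξ)

theorem SchKer.add {K K' : Γ → Γ → ℝ} (h : SchKer K) (h' : SchKer K') :
    SchKer (fun g h => K g h + K' g h) := by
  refine ⟨fun g k => by beta_reduce; rw [h.1 g k, h'.1 g k], fun ξ => ?_⟩
  have e : (∑ g ∈ ξ.support, ∑ k ∈ ξ.support, ξ g * (K g k + K' g k) * ξ k) =
      (∑ g ∈ ξ.support, ∑ k ∈ ξ.support, ξ g * K g k * ξ k) +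
        ∑ g ∈ ξ.support, ∑ k ∈ ξ.support, ξ g * K' g k * ξ k := by
    rw [← Finset.sum_add_distrib]
    refine Finset.sum_congr rfl (fun g _ => ?_)
    rw [← Finset.sum_add_distrib]
    refine Finset.sum_congr rfl (fun k _ => ?_)
    ring
  rw [e]
  exact add_nonneg (h.2 ξ) (h'.2 ξ)

theorem SchKer.partSum {K : Γ → Γ → ℝ} (hK : SchKer K) (N : ℕ) :
    SchKer (fun g h => ∑ n ∈ Finset.range N, K g h ^ n / (n.factorial : ℝ)) := by
  induction N with
  | zero =>
    refine ⟨fun g h => by simp, fun ξ => by simp⟩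
  | succ N ih =>
    have h := ih.add ((hK.pow N).smul (t := (N.factorial : ℝ)⁻¹)
      (inv_nonneg.2 (Nat.cast_nonneg _)))
    have e : (fun g h => ∑ n ∈ Finset.range (N + 1), K g h ^ n / (n.factorial : ℝ)) =
        fun g h => (∑ n ∈ Finset.range N, K g h ^ n / (n.factorial : ℝ)) +
          (N.factorial : ℝ)⁻¹ * K g h ^ N := by
      funext g h
      rw [Finset.sum_range_succ, div_eq_inv_mul (K g h ^ N)]
    rw [e]
    exact h

/-- the entrywise exponential of a positive kernel is positive -/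
theorem SchKer.exp {K : Γ → Γ → ℝ} (hK : SchKer K) : SchKer (fun g h => Real.exp (K g h)) := by
  refine ⟨fun g h => by beta_reduce; rw [hK.1 g h], fun ξ => ?_⟩
  have hlim : Tendsto (fun N : ℕ => ∑ g ∈ ξ.support, ∑ h ∈ ξ.support,
      ξ g * (∑ n ∈ Finset.range N, K g h ^ n / (n.factorial : ℝ)) * ξ h) atTop
      (𝓝 (∑ g ∈ ξ.support, ∑ h ∈ ξ.support, ξ g * Real.exp (K g h) * ξ h)) := by
    refine tendsto_finsetSum _ (fun g _ => tendsto_finsetSum _ (fun h _ => ?_))
    have h1 := (NormedSpace.expSeries_div_hasSum_exp (K g h)).tendsto_sum_nat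
    rw [← Real.exp_eq_exp_ℝ] at h1
    exact (h1.const_mul _).mul_const _
  exact ge_of_tendsto' hlim (fun N => (hK.partSum N).2 ξ)

end kernels

section
variable {Γ : Type*} [Group Γ]

theorem schoenberg_B_eq (φ : Γ → ℝ) (ξ η : Γ →₀ ℝ) :
    B φ ξ η = ∑ g ∈ ξ.support, ∑ h ∈ η.support, ξ g * φ (g⁻¹ * h) * η h := by
  unfold B
  rw [Finsupp.linearCombination_apply, Finsupp.sum, LinearMap.sum_apply]
  refine Finset.sum_congr rfl (fun g _ => ?_)
  rw [LinearMap.smul_apply, Finsupp.linearCombination_apply, Finsupp.sum, Finset.smul_sum]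
  refine Finset.sum_congr rfl (fun h _ => ?_)
  rw [smul_eq_mul, smul_eq_mul]
  ring

/-- `ψ g + ψ h - ψ (g⁻¹ h)` is a positive kernel -/
theorem schoenberg_K {ψ : Γ → ℝ} (hψ : Cnd ψ) :
    SchKer (fun g h : Γ => ψ g + ψ h - ψ (g⁻¹ * h)) := by
  obtain ⟨h0, hs, hc⟩ := hψ
  refine ⟨fun g h => ?_, fun ξ => ?_⟩
  · beta_reduce
    rw [← hs (h⁻¹ * g), mul_inv_rev, inv_inv]
    ring
  · set t : ℝ := tot ξ with htdef
    set Q : ℝ := ∑ g ∈ ξ.support, ξ g * ψ g with hQ
    have hB1 : B ψ ξ (Finsupp.single 1 1) = Q := by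
      unfold B
      rw [Finsupp.linearCombination_apply, Finsupp.sum, LinearMap.sum_apply]
      refine Finset.sum_congr rfl (fun g _ => ?_)
      rw [LinearMap.smul_apply, Finsupp.linearCombination_single, smul_eq_mul, smul_eq_mul,
        one_mul, mul_one, hs]
    have hB2 : B ψ (Finsupp.single 1 1) ξ = Q := by
      unfold B
      rw [Finsupp.linearCombination_single, LinearMap.smul_apply,
        Finsupp.linearCombination_apply, Finsupp.sum, one_smul]
      refine Finset.sum_congr rfl (fun g _ => ?_)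
      rw [smul_eq_mul, inv_one, one_mul]
    have hB3 : B ψ (Finsupp.single 1 1) (Finsupp.single 1 1) = 0 := by
      unfold B
      rw [Finsupp.linearCombination_single, LinearMap.smul_apply,
        Finsupp.linearCombination_single, smul_eq_mul, smul_eq_mul, inv_one, mul_one, h0]
      ring
    have ht : t = ∑ g ∈ ξ.support, ξ g := by
      rw [htdef]
      unfold tot
      rw [Finsupp.linearCombination_apply, Finsupp.sum]
      refine Finset.sum_congr rfl (fun g _ => ?_)
      rw [smul_eq_mul, mul_one]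
    have ht1 : tot (Finsupp.single (1 : Γ) (1 : ℝ)) = 1 := by
      unfold tot
      rw [Finsupp.linearCombination_single, smul_eq_mul, mul_one]
    have hle := hc (ξ - t • Finsupp.single 1 1) (by
      rw [map_sub, map_smul, ht1, smul_eq_mul, mul_one, sub_self])
    have hexp : B ψ (ξ - t • Finsupp.single 1 1) (ξ - t • Finsupp.single 1 1) =
        B ψ ξ ξ - 2 * (t * Q) := by
      simp only [map_sub, map_smul, LinearMap.sub_apply, LinearMap.smul_apply, hB1, hB2, hB3,
        smul_eq_mul]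
      ring
    have hform : (∑ g ∈ ξ.support, ∑ h ∈ ξ.support,
        ξ g * (ψ g + ψ h - ψ (g⁻¹ * h)) * ξ h) = 2 * (t * Q) - B ψ ξ ξ := by
      rw [schoenberg_B_eq]
      have e1 : (∑ g ∈ ξ.support, ∑ h ∈ ξ.support, ξ g * (ψ g + ψ h - ψ (g⁻¹ * h)) * ξ h) =
          (∑ g ∈ ξ.support, ∑ h ∈ ξ.support, ξ g * ψ g * ξ h) +
          (∑ g ∈ ξ.support, ∑ h ∈ ξ.support, ξ g * (ξ h * ψ h)) -
          ∑ g ∈ ξ.support, ∑ h ∈ ξ.support, ξ g * ψ (g⁻¹ * h) * ξ h := by
        rw [← Finset.sum_add_distrib, ← Finset.sum_sub_distrib]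
        refine Finset.sum_congr rfl (fun g _ => ?_)
        rw [← Finset.sum_add_distrib, ← Finset.sum_sub_distrib]
        refine Finset.sum_congr rfl (fun h _ => ?_)
        ring
      have e2 : (∑ g ∈ ξ.support, ∑ h ∈ ξ.support, ξ g * ψ g * ξ h) = Q * t := by
        rw [ht, hQ, Finset.sum_mul_sum]
      have e3 : (∑ g ∈ ξ.support, ∑ h ∈ ξ.support, ξ g * (ξ h * ψ h)) = t * Q := by
        rw [ht, hQ, Finset.sum_mul_sum]
      rw [e1, e2, e3]
      ring
    rw [hform]
    rw [hexp] at hle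
    linarith

theorem schoenberg {ψ : Γ → ℝ} (hψ : Cnd ψ) {t : ℝ} (ht : 0 ≤ t) :
    PD (fun g => Real.exp (-(t * ψ g))) := by
  have h1 := ((schoenberg_K hψ).smul ht).exp
  have h2 := (schKer_rank_one (fun g : Γ => Real.exp (-(t * ψ g)))).mul h1
  refine ⟨fun g => by beta_reduce; rw [hψ.2.1 g], fun ξ => ?_⟩
  rw [schoenberg_B_eq]
  have h3 := h2.2 ξ
  refine h3.trans (le_of_eq ?_)
  refine Finset.sum_congr rfl (fun g _ => Finset.sum_congr rfl (fun h _ => ?_))
  have e : Real.exp (-(t * ψ g)) * Real.exp (-(t * ψ h)) *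
      Real.exp (t * (ψ g + ψ h - ψ (g⁻¹ * h))) = Real.exp (-(t * ψ (g⁻¹ * h))) := by
    rw [← Real.exp_add, ← Real.exp_add]
    congr 1
    ring
  beta_reduce
  rw [e]

end

end Pool.Agent.KZ
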