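import Pool.Agent.KZ.Basic
import Pool.Agent.KZ.Schoenberg

set_option autoImplicit false

/-! KZ-9 (MP_e3aa4b_al): indicator functions of subgroups are of positive type; uniform bound for
normalised functions of conditionally negative type. -/

namespace Pool.Agent.KZ

open Filter Topology

variable {Γ : Type*} [Group Γ]

open Classical in
/-- the form of the indicator function of a subgroup -/
theorem kz9_form (S : Subgroup Γ) (ξ ζ : Γ →₀ ℝ) :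
    B (Set.indicator (S : Set Γ) (fun _ => (1 : ℝ))) ξ ζ =
      (ξ.mapDomain (fun g : Γ => (g : Γ ⧸ S))).sum
        (fun q a => a * (ζ.mapDomain (fun g : Γ => (g : Γ ⧸ S))) q) := by
  induction ξ using Finsupp.induction_linear with
  | zero => simp
  | add ξ ξ' h h' =>
    rw [map_add, LinearMap.add_apply, h, h', Finsupp.mapDomain_add, Finsupp.sum_add_index']
    · intro q
      rw [zero_mul]
    · intro q a b
      rw [add_mul]
  | single g a =>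
    rw [Finsupp.mapDomain_single, Finsupp.sum_single_index (by rw [zero_mul])]
    induction ζ using Finsupp.induction_linear with
    | zero => simp
    | add ζ ζ' h h' =>
      rw [map_add, h, h', Finsupp.mapDomain_add, Finsupp.add_apply, mul_add]
    | single k b =>
      rw [B_single_single, Finsupp.mapDomain_single, Finsupp.single_apply]
      by_cases hk : g⁻¹ * k ∈ S
      · have h1 : (k : Γ ⧸ S) = (g : Γ ⧸ S) := (QuotientGroup.eq.2 hk).symm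
        rw [if_pos h1, Set.indicator_of_mem (show g⁻¹ * k ∈ (S : Set Γ) from hk), mul_one]
      · have h1 : ¬ ((k : Γ ⧸ S) = (g : Γ ⧸ S)) := fun h => hk (QuotientGroup.eq.1 h.symm)
        rw [if_neg h1, Set.indicator_of_notMem (show g⁻¹ * k ∉ (S : Set Γ) from hk), mul_zero,
          mul_zero]

theorem pd_indicator (S : Subgroup Γ) : PD (Set.indicator (S : Set Γ) (fun _ => (1 : ℝ))) := by
  classical
  constructor
  · intro g
    by_cases hg : g ∈ S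
    · rw [Set.indicator_of_mem (show g⁻¹ ∈ (S : Set Γ) from S.inv_mem hg),
        Set.indicator_of_mem (show g ∈ (S : Set Γ) from hg)]
    · rw [Set.indicator_of_notMem (show g⁻¹ ∉ (S : Set Γ) from fun h => hg (S.inv_mem_iff.1 h)),
        Set.indicator_of_notMem (show g ∉ (S : Set Γ) from hg)]
  · intro ξ
    rw [kz9_form]
    exact Finset.sum_nonneg fun q _ => mul_self_nonneg _

theorem kazhdan_gen {F : Finset Γ} {C : ℝ}
    (h : ∀ p : Γ → ℝ, PD p → p 1 = 1 → ∀ g, 1 - p g ≤ C * ∑ s ∈ F, (1 - p s)) :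
    Subgroup.closure (F : Set Γ) = ⊤ := by
  rw [eq_top_iff]
  intro g _
  have h1 := h _ (pd_indicator (Subgroup.closure (F : Set Γ)))
    (Set.indicator_of_mem (Subgroup.one_mem _) _) g
  have h2 : ∑ s ∈ F, (1 - Set.indicator ((Subgroup.closure (F : Set Γ) : Subgroup Γ) : Set Γ)
      (fun _ => (1 : ℝ)) s) = 0 := by
    refine Finset.sum_eq_zero fun s hs => ?_
    rw [Set.indicator_of_mem (Subgroup.subset_closure (by exact_mod_cast hs)), sub_self]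
  rw [h2, mul_zero] at h1
  by_contra hg
  rw [Set.indicator_of_notMem (show g ∉ ((Subgroup.closure (F : Set Γ) : Subgroup Γ) : Set Γ)
    from hg)] at h1
  linarith

/-- a normalised function is bounded by `N²` on `F` -/
theorem kz9_le {F : Finset Γ} (h1F : (1 : Γ) ∈ F) {ψ : Γ → ℝ} (h0 : ∀ g, 0 ≤ ψ g)
    (h1 : T F ψ 1 = 1) {s : Γ} (hs : s ∈ F) : ψ s ≤ (F.card : ℝ) ^ 2 := by
  have hN : (0 : ℝ) < F.card := by exact_mod_cast Finset.card_pos.2 ⟨1, h1F⟩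
  have h2 : ∑ s ∈ F, ∑ t ∈ F, ψ (s⁻¹ * 1 * t) = (F.card : ℝ) ^ 2 := by
    have h3 : (F.card : ℝ)⁻¹ * ((F.card : ℝ)⁻¹ * ∑ s ∈ F, ∑ t ∈ F, ψ (s⁻¹ * 1 * t)) = 1 := h1
    field_simp at h3
    linarith
  have h4 : ∑ t ∈ F, ψ ((1 : Γ)⁻¹ * 1 * t) ≤ ∑ s ∈ F, ∑ t ∈ F, ψ (s⁻¹ * 1 * t) :=
    Finset.single_le_sum (f := fun s => ∑ t ∈ F, ψ (s⁻¹ * 1 * t))
      (fun s _ => Finset.sum_nonneg fun t _ => h0 _) h1F
  have h5 : ψ ((1 : Γ)⁻¹ * 1 * s) ≤ ∑ t ∈ F, ψ ((1 : Γ)⁻¹ * 1 * t) :=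
    Finset.single_le_sum (f := fun t => ψ ((1 : Γ)⁻¹ * 1 * t)) (fun t _ => h0 _) hs
  have h6 : (1 : Γ)⁻¹ * 1 * s = s := by group
  rw [h6] at h5
  linarith

/-- uniform bound for normalised functions of conditionally negative type -/
theorem cnd_bound {F₀ : Finset Γ} {C : ℝ} (hC : 0 < C)
    (h : ∀ p : Γ → ℝ, PD p → p 1 = 1 → ∀ g, 1 - p g ≤ C * ∑ s ∈ F₀, (1 - p s))
    {F : Finset Γ} (hF : Good F) (hF₀ : F₀ ⊆ F) :
    ∃ C1 : ℝ, 0 < C1 ∧ ∀ ψ : Γ → ℝ, Cnd ψ → (∀ g, 0 ≤ ψ g) → T F ψ 1 = 1 → ∀ g, ψ g ≤ C1 := by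
  have hN : (0 : ℝ) < F.card := by exact_mod_cast Finset.card_pos.2 ⟨1, hF.one⟩
  have hk : (0 : ℝ) ≤ F₀.card := Nat.cast_nonneg _
  have hD : 0 < 2 * C * ((F₀.card : ℝ) + 1) * (F.card : ℝ) ^ 2 := by positivity
  refine ⟨2 * C * ((F₀.card : ℝ) + 1) * (F.card : ℝ) ^ 2, hD, ?_⟩
  intro ψ hψ h0 h1 g
  set D := 2 * C * ((F₀.card : ℝ) + 1) * (F.card : ℝ) ^ 2 with hDdef
  have hp := schoenberg hψ (t := D⁻¹) (inv_nonneg.2 hD.le)
  have hp1 : Real.exp (-(D⁻¹ * ψ 1)) = 1 := by rw [hψ.1]; simp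
  have h2 := h _ hp hp1 g
  have h3 : ∑ s ∈ F₀, (1 - Real.exp (-(D⁻¹ * ψ s))) ≤
      ∑ _s ∈ F₀, D⁻¹ * (F.card : ℝ) ^ 2 := by
    refine Finset.sum_le_sum fun s hs => ?_
    have h4 := Real.add_one_le_exp (-(D⁻¹ * ψ s))
    have h5 := kz9_le hF.one h0 h1 (hF₀ hs)
    have h6 : D⁻¹ * ψ s ≤ D⁻¹ * (F.card : ℝ) ^ 2 :=
      mul_le_mul_of_nonneg_left h5 (inv_nonneg.2 hD.le)
    linarith
  rw [Finset.sum_const, nsmul_eq_mul] at h3
  have h7 : C * ((F₀.card : ℝ) * (D⁻¹ * (F.card : ℝ) ^ 2)) ≤ 1 / 2 := by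
    have h8 : C * ((F₀.card : ℝ) * (D⁻¹ * (F.card : ℝ) ^ 2)) =
        (C * (F₀.card : ℝ) * (F.card : ℝ) ^ 2) / D := by
      field_simp
    rw [h8, div_le_iff₀ hD, hDdef]
    nlinarith [mul_pos hC (pow_pos hN 2)]
  have h9 : 1 - Real.exp (-(D⁻¹ * ψ g)) ≤ 1 / 2 :=
    h2.trans ((mul_le_mul_of_nonneg_left h3 hC.le).trans h7)
  by_contra hcon
  push Not at hcon
  have h10 : 1 < D⁻¹ * ψ g := by
    rw [inv_mul_eq_div, lt_div_iff₀ hD]
    linarith
  have h11 := Real.add_one_le_exp (D⁻¹ * ψ g)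
  have h12 : Real.exp (-(D⁻¹ * ψ g)) * Real.exp (D⁻¹ * ψ g) = 1 := by
    rw [← Real.exp_add]; simp
  have h13 : 0 < Real.exp (-(D⁻¹ * ψ g)) := Real.exp_pos _
  nlinarith

end Pool.Agent.KZ
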