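import Pool.Agent.KZ.Defs

set_option autoImplicit false

/-! KZ-1: the cone of weights whose laplacian is a sum of squares. -/

namespace Pool.Agent.KZ

section
variable {Γ : Type*} [Group Γ]

theorem kz1_B_single (φ : Γ → ℝ) (g h : Γ) (a b : ℝ) :
    B φ (Finsupp.single g a) (Finsupp.single h b) = a * b * φ (g⁻¹ * h) := by
  simp only [B, Finsupp.linearCombination_single, LinearMap.smul_apply, smul_eq_mul]
  ring

theorem kz1_tot_single (g : Γ) (a : ℝ) : tot (Finsupp.single g a) = a := by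
  simp [tot]

theorem kz1_L_single (φ : Γ → ℝ) (g : Γ) (a : ℝ) :
    L φ (Finsupp.single g a) = a * (2 * φ 1 - φ g - φ g⁻¹) := by
  simp [L]

theorem sos_zero : SOS (0 : Γ →₀ ℝ) :=
  ⟨[], by simp, by simp⟩

theorem sos_add {w w' : Γ →₀ ℝ} (h : SOS w) (h' : SOS w') : SOS (w + w') := by
  obtain ⟨l, hl, hL⟩ := h
  obtain ⟨l', hl', hL'⟩ := h'
  refine ⟨l ++ l', ?_, fun φ => ?_⟩
  · intro ξ hξ
    rcases List.mem_append.1 hξ with h | h
    · exact hl ξ h
    · exact hl' ξ h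
  · rw [map_add, hL, hL', List.map_append, List.sum_append]

theorem sos_smul {w : Γ →₀ ℝ} {c : ℝ} (hc : 0 ≤ c) (h : SOS w) : SOS (c • w) := by
  obtain ⟨l, hl, hL⟩ := h
  refine ⟨l.map fun ξ => (Real.sqrt c) • ξ, ?_, fun φ => ?_⟩
  · intro ξ hξ
    obtain ⟨η, hη, rfl⟩ := List.mem_map.1 hξ
    rw [map_smul, hl η hη, smul_zero]
  · rw [map_smul, hL, smul_eq_mul, ← List.sum_map_mul_left, List.map_map]
    congr 1
    apply List.map_congr_left
    intro ξ _
    simp only [Function.comp_apply, map_smul, LinearMap.smul_apply, smul_eq_mul]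
    rw [← mul_assoc, Real.mul_self_sqrt hc]

theorem sos_sum {ι : Type*} (s : Finset ι) (w : ι → Γ →₀ ℝ) (h : ∀ i ∈ s, SOS (w i)) :
    SOS (∑ i ∈ s, w i) := by
  classical
  induction s using Finset.induction_on with
  | empty => simpa using sos_zero
  | insert i s hi ih =>
    rw [Finset.sum_insert hi]
    exact sos_add (h i (Finset.mem_insert_self i s))
      (ih fun j hj => h j (Finset.mem_insert_of_mem hj))

theorem sos_single (g : Γ) : SOS (Finsupp.single g (1 : ℝ)) := by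
  refine ⟨[Finsupp.single 1 1 - Finsupp.single g 1], ?_, fun φ => ?_⟩
  · intro ξ hξ
    rw [List.mem_singleton.1 hξ, map_sub, kz1_tot_single, kz1_tot_single, sub_self]
  · simp only [List.map_cons, List.map_nil, List.sum_cons, List.sum_nil, map_sub,
      LinearMap.sub_apply, kz1_B_single, kz1_L_single, inv_one, one_mul, mul_one, inv_mul_cancel]
    ring

theorem sos_single_one (c : ℝ) : SOS (Finsupp.single (1 : Γ) c) := by
  refine ⟨[], by simp, fun φ => ?_⟩
  rw [kz1_L_single, inv_one]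
  simp
  right
  ring

theorem sos_inv (g : Γ) (c : ℝ) :
    SOS (Finsupp.single g c - Finsupp.single g⁻¹ c) := by
  refine ⟨[], by simp, fun φ => ?_⟩
  rw [map_sub, kz1_L_single, kz1_L_single, inv_inv]
  simp only [List.map_nil, List.sum_nil]
  ring

theorem sos_mul (g h : Γ) :
    SOS ((2 : ℝ) • Finsupp.single g (1 : ℝ) + (2 : ℝ) • Finsupp.single h (1 : ℝ)
      - Finsupp.single (g * h) (1 : ℝ)) := by
  refine ⟨[Finsupp.single 1 1 - (2 : ℝ) • Finsupp.single g 1 + Finsupp.single (g * h) 1], ?_,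
    fun φ => ?_⟩
  · intro ξ hξ
    rw [List.mem_singleton.1 hξ, map_add, map_sub, map_smul, kz1_tot_single, kz1_tot_single,
      kz1_tot_single]
    norm_num
  · simp only [List.map_cons, List.map_nil, List.sum_cons, List.sum_nil, map_sub, map_add,
      map_smul, LinearMap.sub_apply, LinearMap.add_apply, LinearMap.smul_apply, smul_eq_mul,
      kz1_B_single, kz1_L_single, inv_one, one_mul, mul_one, inv_mul_cancel,
      inv_mul_cancel_left, mul_inv_rev]
    have h1 : h⁻¹ * g⁻¹ * g = h⁻¹ := by group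
    have h2 : h⁻¹ * g⁻¹ * (g * h) = 1 := by group
    rw [h1, h2]
    ring

theorem kz1_B_eq (φ : Γ → ℝ) (ξ : Γ →₀ ℝ) :
    B φ ξ ξ = ∑ g ∈ ξ.support, ∑ h ∈ ξ.support, ξ g * ξ h * φ (g⁻¹ * h) := by
  unfold B
  rw [Finsupp.linearCombination_apply, Finsupp.sum, LinearMap.sum_apply]
  apply Finset.sum_congr rfl
  intro g _
  rw [LinearMap.smul_apply, Finsupp.linearCombination_apply, Finsupp.sum, smul_eq_mul,
    Finset.mul_sum]
  apply Finset.sum_congr rfl
  intro h _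
  rw [smul_eq_mul]
  ring

theorem kz1_tot_eq (ξ : Γ →₀ ℝ) : tot ξ = ∑ g ∈ ξ.support, ξ g := by
  simp [tot, Finsupp.linearCombination_apply, Finsupp.sum]

/-- the weights of a square: `w = -½ ∑ ξ(g)ξ(h) δ_{g⁻¹h}` for `tot ξ = 0` -/
theorem sos_form (ξ : Γ →₀ ℝ) (hξ : tot ξ = 0) :
    SOS ((-(1 / 2) : ℝ) • ξ.sum fun g a => ξ.sum fun h b => Finsupp.single (g⁻¹ * h) (a * b)) := by
  refine ⟨[ξ], ?_, fun φ => ?_⟩
  · intro η hη
    rw [List.mem_singleton.1 hη, hξ]
  · simp only [List.map_cons, List.map_nil, List.sum_cons, List.sum_nil, add_zero, map_smul,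
      smul_eq_mul, Finsupp.sum, map_sum, kz1_L_single]
    rw [kz1_B_eq]
    have h1 : ∀ g h : Γ, ξ g * ξ h * (2 * φ 1 - φ (g⁻¹ * h) - φ (g⁻¹ * h)⁻¹) =
        2 * φ 1 * (ξ g * ξ h) - ξ g * ξ h * φ (g⁻¹ * h) - ξ h * ξ g * φ (h⁻¹ * g) := by
      intro g h
      rw [mul_inv_rev, inv_inv]
      ring
    simp_rw [h1, Finset.sum_sub_distrib]
    have h2 : ∑ g ∈ ξ.support, ∑ h ∈ ξ.support, 2 * φ 1 * (ξ g * ξ h) = 0 := by
      simp_rw [← Finset.mul_sum]
      rw [← Finset.sum_mul, ← kz1_tot_eq, hξ]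
      ring
    have h3 : ∑ g ∈ ξ.support, ∑ h ∈ ξ.support, ξ h * ξ g * φ (h⁻¹ * g) =
        ∑ g ∈ ξ.support, ∑ h ∈ ξ.support, ξ g * ξ h * φ (g⁻¹ * h) := Finset.sum_comm
    rw [h2, h3]
    ring

end

end Pool.Agent.KZ
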