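import Mathlib

set_option autoImplicit false

/-!
# Property (T) groups and weak Haagerup constant one: definitions (MP_e3aa4b_al)

Part I: the notions of the problem file.  Part II: the objects used in the proof.
-/

namespace Pool.Agent.KZ

universe u

open Filter Topology

/-! ## Part I -/

/-- Kazhdan's property (T) of a discrete group: there are a finite set `F` and `ε > 0` such that
every unitary representation on a Hilbert space which has a nonzero vector `v` with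
`‖π(g)v - v‖ < ε‖v‖` for all `g ∈ F` has a nonzero invariant vector. -/
def PropertyT (Γ : Type u) [Group Γ] : Prop :=
  ∃ (F : Finset Γ) (ε : ℝ), 0 < ε ∧
    ∀ (H : Type u) (_ : NormedAddCommGroup H) (_ : InnerProductSpace ℂ H) (_ : CompleteSpace H)
      (π : Γ →* (H ≃ₗᵢ[ℂ] H)),
      (∃ v : H, v ≠ 0 ∧ ∀ g ∈ F, ‖π g v - v‖ < ε * ‖v‖) →
        ∃ w : H, w ≠ 0 ∧ ∀ g, π g w = w

/-- `φ` is a Herz-Schur multiplier with a factorisation of size `C`: there are a Hilbert space and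
bounded continuous maps `P, Q` into it with `φ(y⁻¹x) = ⟨P(x), Q(y)⟩` and
`sup‖P‖ · sup‖Q‖ ≤ C` (Mathlib's inner product is conjugate linear in the first variable). -/
def HerzSchurLE {G : Type u} [Group G] [TopologicalSpace G] (φ : G → ℂ) (C : ℝ) : Prop :=
  ∃ (H : Type u) (_ : NormedAddCommGroup H) (_ : InnerProductSpace ℂ H) (_ : CompleteSpace H)
    (P Q : G → H) (a b : ℝ),
    Continuous P ∧ Continuous Q ∧ (∀ x, ‖P x‖ ≤ a) ∧ (∀ y, ‖Q y‖ ≤ b) ∧ a * b ≤ C ∧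
      ∀ x y, φ (y⁻¹ * x) = inner ℂ (Q y) (P x)

/-- `φ` is a continuous Herz-Schur multiplier. -/
def IsHerzSchur {G : Type u} [Group G] [TopologicalSpace G] (φ : G → ℂ) : Prop :=
  Continuous φ ∧ ∃ C : ℝ, HerzSchurLE φ C

/-- The norm of a Herz-Schur multiplier: the infimum of the sizes of its factorisations. -/
noncomputable def B2Norm {G : Type u} [Group G] [TopologicalSpace G] (φ : G → ℂ) : ℝ :=
  sInf {C : ℝ | HerzSchurLE φ C}

/-- Compactly supported continuous Herz-Schur multipliers of norm at most `C` approximate `1`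
uniformly on compact sets. -/
def WeaklyAmenableWith (G : Type u) [Group G] [TopologicalSpace G] (C : ℝ) : Prop :=
  ∀ K : Set G, IsCompact K → ∀ ε : ℝ, 0 < ε → ∃ φ : G → ℂ,
    IsHerzSchur φ ∧ HasCompactSupport φ ∧ B2Norm φ ≤ C ∧ ∀ x ∈ K, ‖φ x - 1‖ < ε

/-- Weak amenability. -/
def WeaklyAmenable (G : Type u) [Group G] [TopologicalSpace G] : Prop :=
  ∃ C : ℝ, 1 ≤ C ∧ WeaklyAmenableWith G C

/-- The Cowling-Haagerup constant (of a weakly amenable group). -/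
noncomputable def CowlingHaagerupConstant (G : Type u) [Group G] [TopologicalSpace G] : ℝ :=
  sInf {C : ℝ | 1 ≤ C ∧ WeaklyAmenableWith G C}

/-- Continuous Herz-Schur multipliers vanishing at infinity of norm at most `C` approximate `1`
uniformly on compact sets. -/
def WeakHaagerupWith (G : Type u) [Group G] [TopologicalSpace G] (C : ℝ) : Prop :=
  ∀ K : Set G, IsCompact K → ∀ ε : ℝ, 0 < ε → ∃ φ : G → ℂ,
    IsHerzSchur φ ∧ Tendsto φ (cocompact G) (𝓝 0) ∧ B2Norm φ ≤ C ∧ ∀ x ∈ K, ‖φ x - 1‖ < ε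

/-- The weak Haagerup property. -/
def WeakHaagerup (G : Type u) [Group G] [TopologicalSpace G] : Prop :=
  ∃ C : ℝ, 1 ≤ C ∧ WeakHaagerupWith G C

/-- The weak Haagerup constant (of a group with the weak Haagerup property). -/
noncomputable def WeakHaagerupConstant (G : Type u) [Group G] [TopologicalSpace G] : ℝ :=
  sInf {C : ℝ | 1 ≤ C ∧ WeakHaagerupWith G C}

/-! ## Part II -/

section Ops

variable {Γ : Type*} [Group Γ]

/-- The average over right translations by the elements of `F`. -/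
noncomputable def M (F : Finset Γ) {E : Type*} [AddCommGroup E] [Module ℝ E] (f : Γ → E) :
    Γ → E :=
  fun x => (F.card : ℝ)⁻¹ • ∑ s ∈ F, f (x * s)

/-- The two-sided average. -/
noncomputable def T (F : Finset Γ) (φ : Γ → ℝ) : Γ → ℝ :=
  fun g => (F.card : ℝ)⁻¹ * ((F.card : ℝ)⁻¹ * ∑ s ∈ F, ∑ t ∈ F, φ (s⁻¹ * g * t))

/-- The bilinear form `∑ ξ(g) η(h) φ(g⁻¹h)`. -/
noncomputable def B (φ : Γ → ℝ) : (Γ →₀ ℝ) →ₗ[ℝ] (Γ →₀ ℝ) →ₗ[ℝ] ℝ :=
  Finsupp.linearCombination ℝ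
    (fun g => Finsupp.linearCombination ℝ (fun h => φ (g⁻¹ * h)))

/-- The sum of the coefficients. -/
noncomputable def tot : (Γ →₀ ℝ) →ₗ[ℝ] ℝ :=
  Finsupp.linearCombination ℝ (fun _ => (1 : ℝ))

/-- The value at `φ` of the laplacian with weights `w`. -/
noncomputable def L (φ : Γ → ℝ) : (Γ →₀ ℝ) →ₗ[ℝ] ℝ :=
  Finsupp.linearCombination ℝ (fun g => 2 * φ 1 - φ g - φ g⁻¹)

/-- The weights whose laplacian is a sum of squares in the augmentation ideal. -/
def SOS (w : Γ →₀ ℝ) : Prop :=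
  ∃ l : List (Γ →₀ ℝ), (∀ ξ ∈ l, tot ξ = 0) ∧
    ∀ φ : Γ → ℝ, L φ w = (l.map fun ξ => B φ ξ ξ).sum

/-- Normalised symmetric functions of conditionally negative type. -/
def Cnd (ψ : Γ → ℝ) : Prop :=
  ψ 1 = 0 ∧ (∀ g, ψ g⁻¹ = ψ g) ∧ ∀ ξ : Γ →₀ ℝ, tot ξ = 0 → B ψ ξ ξ ≤ 0

/-- Symmetric real functions of positive type. -/
def PD (p : Γ → ℝ) : Prop :=
  (∀ g, p g⁻¹ = p g) ∧ ∀ ξ : Γ →₀ ℝ, 0 ≤ B p ξ ξ

/-- A finite symmetric generating set containing the unit. -/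
structure Good (F : Finset Γ) : Prop where
  one : (1 : Γ) ∈ F
  inv : ∀ s ∈ F, s⁻¹ ∈ F
  gen : Subgroup.closure (F : Set Γ) = ⊤

/-- The weights of the two-sided average. -/
noncomputable def wnu (F : Finset Γ) : Γ →₀ ℝ :=
  ((F.card : ℝ)⁻¹ * (F.card : ℝ)⁻¹) • ∑ s ∈ F, ∑ t ∈ F, Finsupp.single (s⁻¹ * t) (1 : ℝ)

/-- The certificate of the spectral gap: `Δ² - κΔ` is a sum of squares in the augmentation
ideal, tested against all functions. -/
def Cert (F : Finset Γ) (κ : ℝ) : Prop :=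
  ∃ l : List (Γ →₀ ℝ), (∀ ξ ∈ l, tot ξ = 0) ∧ ∀ φ : Γ → ℝ,
    (φ 1 - T F φ 1) - (T F φ 1 - T F (T F φ) 1) - κ * (φ 1 - T F φ 1) =
      (l.map fun ξ => B φ ξ ξ).sum

/-- `φ` is a difference of two positive kernels: `φ(y⁻¹x) = ⟨A x, A y⟩ - ⟨C x, C y⟩`. -/
def IsJ {E E' : Type*} [NormedAddCommGroup E] [InnerProductSpace ℝ E] [NormedAddCommGroup E']
    [InnerProductSpace ℝ E'] (φ : Γ → ℝ) (A : Γ → E) (C : Γ → E') : Prop :=
  ∀ x y, φ (y⁻¹ * x) = inner ℝ (A x) (A y) - inner ℝ (C x) (C y)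

/-- The translated vector `∑ ξ(g) A(x g)`. -/
noncomputable def vec {E : Type*} [AddCommGroup E] [Module ℝ E] (A : Γ → E) (x : Γ) :
    (Γ →₀ ℝ) →ₗ[ℝ] E :=
  Finsupp.linearCombination ℝ (fun g => A (x * g))

/-- `c * u (x g)` is at most the `r`-th average of `u` at `x`, for nonnegative `u`. -/
def Reach (F : Finset Γ) (g : Γ) (r : ℕ) (c : ℝ) : Prop :=
  ∀ u : Γ → ℝ, (∀ x, 0 ≤ u x) → ∀ x, c * u (x * g) ≤ (M F)^[r] u x

end Ops

end Pool.Agent.KZ
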