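import Pool.Agent.KZ.Defs

/-!
The GNS construction for symmetric real functions of positive type on a group.
-/

set_option autoImplicit false

namespace Pool.Agent.KZ

universe u

open ComplexConjugate

section GNS

variable {Γ : Type u} [Group Γ]

/-- the sesquilinear form of `p` on finitely supported complex functions -/
noncomputable def cin (p : Γ → ℝ) (f g : Γ →₀ ℂ) : ℂ :=
  f.sum fun x a => g.sum fun y b => conj a * b * (p (x⁻¹ * y) : ℂ)

theorem cin_symm {p : Γ → ℝ} (hp : ∀ g, p g⁻¹ = p g) (f g : Γ →₀ ℂ) :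
    conj (cin p g f) = cin p f g := by
  unfold cin
  rw [Finsupp.sum_comm]
  simp only [map_finsuppSum]
  refine Finsupp.sum_congr fun x _ => Finsupp.sum_congr fun y _ => ?_
  have h : p (y⁻¹ * x) = p (x⁻¹ * y) := by
    rw [← hp (y⁻¹ * x)]
    congr 1
    group
  simp only [map_mul, Complex.conj_conj, Complex.conj_ofReal, h]
  ring

theorem cin_add_left (p : Γ → ℝ) (f g h : Γ →₀ ℂ) :
    cin p (f + g) h = cin p f h + cin p g h := by
  unfold cin
  rw [Finsupp.sum_add_index']
  · intro x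
    simp
  · intro x a b
    simp only [map_add, add_mul]
    rw [Finsupp.sum_add]

theorem cin_smul_left (p : Γ → ℝ) (f g : Γ →₀ ℂ) (r : ℂ) :
    cin p (r • f) g = conj r * cin p f g := by
  unfold cin
  rw [Finsupp.sum_smul_index]
  · rw [Finsupp.mul_sum]
    refine Finsupp.sum_congr fun x _ => ?_
    rw [Finsupp.mul_sum]
    refine Finsupp.sum_congr fun y _ => ?_
    simp only [map_mul]
    ring
  · intro x
    simp

theorem B_eq_sum (p : Γ → ℝ) (ξ : Γ →₀ ℝ) (s : Finset Γ) (hs : ξ.support ⊆ s) :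
    B p ξ ξ = ∑ x ∈ s, ∑ y ∈ s, ξ x * ξ y * p (x⁻¹ * y) := by
  unfold B
  rw [Finsupp.linearCombination_apply, Finsupp.sum_of_support_subset _ hs _ (by simp)]
  rw [LinearMap.sum_apply]
  refine Finset.sum_congr rfl fun x _ => ?_
  rw [LinearMap.smul_apply, Finsupp.linearCombination_apply,
    Finsupp.sum_of_support_subset _ hs _ (by simp), Finset.smul_sum]
  refine Finset.sum_congr rfl fun y _ => ?_
  simp only [smul_eq_mul]
  ring

theorem cin_self_re {p : Γ → ℝ} (f : Γ →₀ ℂ) :
    (cin p f f).re = B p (f.mapRange Complex.re Complex.zero_re)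
      (f.mapRange Complex.re Complex.zero_re) +
      B p (f.mapRange Complex.im Complex.zero_im) (f.mapRange Complex.im Complex.zero_im) := by
  rw [B_eq_sum p _ f.support Finsupp.support_mapRange,
    B_eq_sum p _ f.support Finsupp.support_mapRange, ← Finset.sum_add_distrib]
  unfold cin Finsupp.sum
  rw [Complex.re_sum]
  refine Finset.sum_congr rfl fun x _ => ?_
  rw [Complex.re_sum, ← Finset.sum_add_distrib]
  refine Finset.sum_congr rfl fun y _ => ?_
  simp only [Finsupp.mapRange_apply, Complex.mul_re, Complex.conj_re,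
    Complex.conj_im, Complex.ofReal_re, Complex.ofReal_im, mul_zero, sub_zero]
  ring

/-- the pre-inner product -/
@[reducible]
noncomputable def core {p : Γ → ℝ} (hp : PD p) : PreInnerProductSpace.Core ℂ (Γ →₀ ℂ) where
  inner := cin p
  conj_inner_symm f g := cin_symm hp.1 f g
  re_inner_nonneg f := by
    show 0 ≤ (cin p f f).re
    rw [cin_self_re]
    exact add_nonneg (hp.2 _) (hp.2 _)
  add_left := cin_add_left p
  smul_left f g r := cin_smul_left p f g r

theorem cin_transl (p : Γ → ℝ) (g : Γ) (f h : Γ →₀ ℂ) :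
    cin p (Finsupp.domLCongr (R := ℂ) (Equiv.mulLeft g) f)
      (Finsupp.domLCongr (R := ℂ) (Equiv.mulLeft g) h) = cin p f h := by
  unfold cin
  simp only [Finsupp.domLCongr_apply, Finsupp.domCongr_apply, Finsupp.equivMapDomain_eq_mapDomain]
  rw [Finsupp.sum_mapDomain_index_inj (Equiv.injective _)]
  refine Finsupp.sum_congr fun x _ => ?_
  rw [Finsupp.sum_mapDomain_index_inj (Equiv.injective _)]
  refine Finsupp.sum_congr fun y _ => ?_
  congr 3
  simp only [Equiv.coe_mulLeft]
  group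

theorem gns {Γ : Type u} [Group Γ] {p : Γ → ℝ} (hp : PD p) :
    ∃ (H : Type u) (_ : NormedAddCommGroup H) (_ : InnerProductSpace ℂ H) (_ : CompleteSpace H)
      (π : Γ →* (H ≃ₗᵢ[ℂ] H)) (v : H), ∀ g, inner ℂ v (π g v) = (p g : ℂ) := by
  let sn : SeminormedAddCommGroup (Γ →₀ ℂ) :=
    @InnerProductSpace.Core.toSeminormedAddCommGroup ℂ (Γ →₀ ℂ) _ _ _ (core hp)
  let ip : InnerProductSpace ℂ (Γ →₀ ℂ) := InnerProductSpace.ofCore (core hp)
  have hinner : ∀ f g : Γ →₀ ℂ, inner ℂ f g = cin p f g := fun f g => rfl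
  have hnorm : ∀ (g : Γ) (f : Γ →₀ ℂ),
      ‖(UniformSpace.Completion.toComplₗᵢ (𝕜 := ℂ) (E := Γ →₀ ℂ)).toLinearMap
        (Finsupp.domLCongr (R := ℂ) (Equiv.mulLeft g) f)‖ =
      ‖(UniformSpace.Completion.toComplₗᵢ (𝕜 := ℂ) (E := Γ →₀ ℂ)).toLinearMap f‖ := by
    intro g f
    simp only [LinearIsometry.coe_toLinearMap, LinearIsometry.norm_map]
    rw [@norm_eq_sqrt_re_inner ℂ, @norm_eq_sqrt_re_inner ℂ, hinner, hinner, cin_transl]
  have hd : DenseRange (UniformSpace.Completion.toComplₗᵢ (𝕜 := ℂ) (E := Γ →₀ ℂ)).toLinearMap := by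
    simpa using UniformSpace.Completion.denseRange_coe (α := Γ →₀ ℂ)
  let π₀ : Γ → (UniformSpace.Completion (Γ →₀ ℂ) ≃ₗᵢ[ℂ] UniformSpace.Completion (Γ →₀ ℂ)) :=
    fun g => (Finsupp.domLCongr (R := ℂ) (Equiv.mulLeft g)).extendOfIsometry
      (UniformSpace.Completion.toComplₗᵢ (𝕜 := ℂ) (E := Γ →₀ ℂ)).toLinearMap
      (UniformSpace.Completion.toComplₗᵢ (𝕜 := ℂ) (E := Γ →₀ ℂ)).toLinearMap hd hd (hnorm g)
  have hπ : ∀ (g : Γ) (f : Γ →₀ ℂ), π₀ g (f : UniformSpace.Completion (Γ →₀ ℂ)) =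
      ((Finsupp.domLCongr (R := ℂ) (Equiv.mulLeft g) f : Γ →₀ ℂ) :
        UniformSpace.Completion (Γ →₀ ℂ)) := by
    intro g f
    exact LinearEquiv.extendOfIsometry_eq _ _ _ hd hd (hnorm g) f
  let π : Γ →* (UniformSpace.Completion (Γ →₀ ℂ) ≃ₗᵢ[ℂ] UniformSpace.Completion (Γ →₀ ℂ)) :=
    { toFun := π₀
      map_one' := by
        ext x
        refine UniformSpace.Completion.induction_on x
          (isClosed_eq (π₀ 1).continuous continuous_id) fun f => ?_
        rw [hπ]
        congr 1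
        ext y
        simp only [Finsupp.domLCongr_apply, Finsupp.domCongr_apply, Finsupp.equivMapDomain_apply,
          Equiv.mulLeft_symm_apply, inv_one, one_mul]
      map_mul' := by
        intro g h
        ext x
        refine UniformSpace.Completion.induction_on x
          (isClosed_eq (π₀ (g * h)).continuous ((π₀ g).continuous.comp (π₀ h).continuous))
          fun f => ?_
        show π₀ (g * h) f = π₀ g (π₀ h f)
        rw [hπ, hπ, hπ]
        congr 1
        ext y
        simp only [Finsupp.domLCongr_apply, Finsupp.domCongr_apply, Finsupp.equivMapDomain_apply,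
          Equiv.mulLeft_symm_apply, mul_inv_rev, mul_assoc] }
  refine ⟨UniformSpace.Completion (Γ →₀ ℂ), inferInstance, inferInstance, inferInstance, π,
    ((Finsupp.single 1 1 : Γ →₀ ℂ) : UniformSpace.Completion (Γ →₀ ℂ)), fun g => ?_⟩
  show inner ℂ ((Finsupp.single 1 1 : Γ →₀ ℂ) : UniformSpace.Completion (Γ →₀ ℂ))
    (π₀ g ((Finsupp.single 1 1 : Γ →₀ ℂ) : UniformSpace.Completion (Γ →₀ ℂ))) = _
  rw [hπ, UniformSpace.Completion.inner_coe, hinner]
  unfold cin
  simp

end GNS

end Pool.Agent.KZ
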