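import Pool.Agent.KZ.Defs

set_option autoImplicit false

/-! KZ-5 (MP_e3aa4b_al): the spectral gap for bounded functions of conditionally negative type. -/

namespace Pool.Agent.KZ

variable {Γ : Type*} [Group Γ]

theorem gap_single (φ : Γ → ℝ) (g h : Γ) (a b : ℝ) :
    B φ (Finsupp.single g a) (Finsupp.single h b) = a * b * φ (g⁻¹ * h) := by
  unfold B
  simp [Finsupp.linearCombination_single]
  ring

theorem gap_tot (g : Γ) (a : ℝ) : tot (Finsupp.single g a) = a := by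
  unfold tot
  simp [Finsupp.linearCombination_single]

/-- the average over pairs -/
noncomputable def gavg (F : Finset Γ) (f : Γ → Γ → ℝ) : ℝ :=
  ((F.card : ℝ)⁻¹ * (F.card : ℝ)⁻¹) * ∑ s ∈ F, ∑ t ∈ F, f s t

theorem gavg_const {F : Finset Γ} (hF : F.Nonempty) (c : ℝ) : gavg F (fun _ _ => c) = c := by
  have h : (F.card : ℝ) ≠ 0 := by exact_mod_cast hF.card_pos.ne'
  unfold gavg
  simp only [Finset.sum_const, nsmul_eq_mul]
  field_simp

theorem gavg_le {F : Finset Γ} {f g : Γ → Γ → ℝ} (h : ∀ s t, f s t ≤ g s t) :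
    gavg F f ≤ gavg F g := by
  unfold gavg
  refine mul_le_mul_of_nonneg_left ?_ (by positivity)
  exact Finset.sum_le_sum fun s _ => Finset.sum_le_sum fun t _ => h s t

theorem gap_lin (F : Finset Γ) {V : Type*} [AddCommGroup V] [Module ℝ V]
    (l : (Γ →₀ ℝ) →ₗ[ℝ] V) : l (wnu F) =
      ((F.card : ℝ)⁻¹ * (F.card : ℝ)⁻¹) • ∑ s ∈ F, ∑ t ∈ F, l (Finsupp.single (s⁻¹ * t) 1) := by
  unfold wnu
  rw [map_smul, map_sum]
  simp only [map_sum]

theorem gap_lin_real (F : Finset Γ) (l : (Γ →₀ ℝ) →ₗ[ℝ] ℝ) :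
    l (wnu F) = gavg F fun s t => l (Finsupp.single (s⁻¹ * t) 1) := by
  rw [gap_lin]; rfl

theorem gap_tot_wnu {F : Finset Γ} (hF : F.Nonempty) : tot (wnu F) = 1 := by
  rw [gap_lin_real]
  simp only [gap_tot]
  exact gavg_const hF 1

theorem gap_B_left (F : Finset Γ) (ψ : Γ → ℝ) (η : Γ →₀ ℝ) :
    B ψ (wnu F) η = gavg F fun s t => B ψ (Finsupp.single (s⁻¹ * t) 1) η :=
  gap_lin_real F ((B ψ).flip η)

theorem gap_B_right (F : Finset Γ) (ψ : Γ → ℝ) (ξ : Γ →₀ ℝ) :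
    B ψ ξ (wnu F) = gavg F fun s t => B ψ ξ (Finsupp.single (s⁻¹ * t) 1) :=
  gap_lin_real F (B ψ ξ)

/-- reindexing by the inverse -/
theorem gap_inv {F : Finset Γ} (hF : Good F) (f : Γ → ℝ) : ∑ s ∈ F, f s⁻¹ = ∑ s ∈ F, f s := by
  refine Finset.sum_nbij' (fun s => s⁻¹) (fun s => s⁻¹) ?_ ?_ ?_ ?_ ?_
  · exact fun s hs => hF.inv s hs
  · exact fun s hs => hF.inv s hs
  · intro s _; exact inv_inv s
  · intro s _; exact inv_inv s
  · intro s _; rfl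

theorem gap_T_one (F : Finset Γ) (φ : Γ → ℝ) : T F φ 1 = gavg F fun s t => φ (s⁻¹ * t) := by
  unfold T gavg
  simp only [mul_one]
  ring

theorem gap_TT {F : Finset Γ} (hF : Good F) (ψ : Γ → ℝ) :
    B ψ (wnu F) (wnu F) = T F (T F ψ) 1 := by
  rw [gap_B_left, gap_T_one]
  unfold gavg
  congr 1
  -- reorganise
  have h1 : ∀ s t : Γ, B ψ (Finsupp.single (s⁻¹ * t) 1) (wnu F) =
      ((F.card : ℝ)⁻¹ * (F.card : ℝ)⁻¹) * ∑ s' ∈ F, ∑ t' ∈ F, ψ (t⁻¹ * s * s'⁻¹ * t') := by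
    intro s t
    rw [gap_B_right]
    unfold gavg
    congr 1
    refine Finset.sum_congr rfl fun s' _ => Finset.sum_congr rfl fun t' _ => ?_
    show B ψ (Finsupp.single (s⁻¹ * t) 1) (Finsupp.single (s'⁻¹ * t') 1) = _
    rw [gap_single]
    simp only [one_mul, mul_inv_rev, inv_inv, mul_assoc]
  have h2 : ∀ s t : Γ, T F ψ (s⁻¹ * t) =
      ((F.card : ℝ)⁻¹ * (F.card : ℝ)⁻¹) * ∑ s' ∈ F, ∑ t' ∈ F, ψ (s'⁻¹ * s⁻¹ * t * t') := by
    intro s t
    unfold T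
    rw [mul_assoc]
    simp only [mul_assoc]
  simp only [h1, h2]
  simp only [← Finset.mul_sum]
  congr 1
  -- ∑ s t s' t' ψ (t⁻¹ s s'⁻¹ t') = ∑ s t s' t' ψ (s'⁻¹ s⁻¹ t t')
  calc ∑ s ∈ F, ∑ t ∈ F, ∑ s' ∈ F, ∑ t' ∈ F, ψ (t⁻¹ * s * s'⁻¹ * t')
      = ∑ s ∈ F, ∑ t ∈ F, ∑ s' ∈ F, ∑ t' ∈ F, ψ (t⁻¹ * s * s' * t') := by
        refine Finset.sum_congr rfl fun s _ => Finset.sum_congr rfl fun t _ => ?_
        exact gap_inv hF fun s' => ∑ t' ∈ F, ψ (t⁻¹ * s * s' * t')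
    _ = ∑ s ∈ F, ∑ t ∈ F, ∑ s' ∈ F, ∑ t' ∈ F, ψ (t⁻¹ * s⁻¹ * s' * t') := by
        exact (gap_inv hF fun s => ∑ t ∈ F, ∑ s' ∈ F, ∑ t' ∈ F, ψ (t⁻¹ * s * s' * t')).symm
    _ = ∑ s ∈ F, ∑ t ∈ F, ∑ s' ∈ F, ∑ t' ∈ F, ψ (s'⁻¹ * s⁻¹ * t * t') := by
        refine Finset.sum_congr rfl fun s _ => ?_
        exact Finset.sum_comm

theorem gap {F : Finset Γ} (hF : Good F) {ψ : Γ → ℝ} (hψ : Cnd ψ) {C1 : ℝ} (hC1 : 0 < C1)
    (h0 : ∀ g, 0 ≤ ψ g) (hb : ∀ g, ψ g ≤ C1) (h1 : T F ψ 1 = 1) :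
    T F (T F ψ) 1 ≤ 2 - 1 / (8 * C1) := by
  have hne : F.Nonempty := ⟨1, hF.one⟩
  obtain ⟨hψ1, hψs, hψn⟩ := hψ
  have hbdd : BddAbove (Set.range ψ) := ⟨C1, by rintro _ ⟨g, rfl⟩; exact hb g⟩
  obtain ⟨h, hh⟩ : ∃ h, iSup ψ - 1 / 2 < ψ h :=
    exists_lt_of_lt_ciSup (by linarith)
  let δh : Γ →₀ ℝ := Finsupp.single h 1
  let δ1 : Γ →₀ ℝ := Finsupp.single 1 1
  let l : ℝ := -(1 / (4 * C1))
  have e1 : B ψ (wnu F) δh ≤ iSup ψ := by
    rw [gap_B_left]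
    have : gavg F (fun s t => B ψ (Finsupp.single (s⁻¹ * t) 1) δh) ≤
        gavg F fun _ _ => iSup ψ := by
      refine gavg_le fun s t => ?_
      rw [gap_single, one_mul, one_mul]
      exact le_ciSup hbdd _
    rwa [gavg_const hne] at this
  have e2 : B ψ δh (wnu F) = B ψ (wnu F) δh := by
    rw [gap_B_left, gap_B_right]
    congr 1
    funext s t
    rw [gap_single, gap_single, ← hψs]
    simp [mul_assoc]
  have e3 : B ψ (wnu F) δ1 = 1 := by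
    refine Eq.trans ?_ h1
    rw [gap_B_left, gap_T_one]
    congr 1
    funext s t
    rw [gap_single, ← hψs]
    simp
  have e4 : B ψ δ1 (wnu F) = 1 := by
    refine Eq.trans ?_ h1
    rw [gap_B_right, gap_T_one]
    congr 1
    funext s t
    rw [gap_single]
    simp
  have e5 : B ψ δh δh = 0 := by rw [gap_single]; simp [hψ1]
  have e6 : B ψ δ1 δ1 = 0 := by rw [gap_single]; simp [hψ1]
  have e7 : B ψ δ1 δh = ψ h := by rw [gap_single]; simp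
  have e8 : B ψ δh δ1 = ψ h := by rw [gap_single, ← hψs]; simp
  have e9 := gap_TT hF ψ
  have key := hψn ((wnu F - δ1) + l • (δh - δ1)) (by
    rw [map_add, map_sub, map_smul, map_sub, gap_tot_wnu hne, gap_tot, gap_tot]
    simp)
  simp only [map_add, map_sub, map_smul, LinearMap.add_apply, LinearMap.sub_apply,
    LinearMap.smul_apply, smul_eq_mul, e2, e3, e4, e5, e6, e7, e8, e9] at key
  have hl : l * (B ψ (wnu F) δh - 1 - ψ h) ≥ 1 / (8 * C1) := by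
    have h2 : B ψ (wnu F) δh - 1 - ψ h ≤ -(1 / 2) := by linarith
    have h3 : l ≤ 0 := by
      have : 0 < 1 / (4 * C1) := by positivity
      show -(1 / (4 * C1)) ≤ 0
      linarith
    have h4 := mul_le_mul_of_nonpos_left h2 h3
    have h5 : l * -(1 / 2) = 1 / (8 * C1) := by
      show -(1 / (4 * C1)) * -(1 / 2) = 1 / (8 * C1)
      field_simp
      norm_num
    linarith
  have hl2 : l * l * ψ h ≤ 1 / (16 * C1) := by
    have h2 : l * l * ψ h ≤ l * l * C1 := mul_le_mul_of_nonneg_left (hb h) (mul_self_nonneg l)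
    have h3 : l * l * C1 = 1 / (16 * C1) := by
      show -(1 / (4 * C1)) * -(1 / (4 * C1)) * C1 = 1 / (16 * C1)
      field_simp
      norm_num
    linarith
  have h6 : 1 / (8 * C1) = 2 * (1 / (16 * C1)) := by
    field_simp
    norm_num
  nlinarith [key, hl, hl2, h6]

end Pool.Agent.KZ
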