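import Pool.Agent.KZ.GNS

/-!
Project KZ (MP_e3aa4b_al), row KZ-8: the Kazhdan inequality.
-/

set_option autoImplicit false

namespace Pool.Agent.KZ

universe u

section
variable {Γ : Type u} [Group Γ] {H : Type u} [NormedAddCommGroup H] [InnerProductSpace ℂ H]

/-- the invariant vectors -/
def kazhdanInv (π : Γ →* (H ≃ₗᵢ[ℂ] H)) : Submodule ℂ H where
  carrier := {w | ∀ g, π g w = w}
  add_mem' := by
    intro a b ha hb g
    rw [map_add, ha g, hb g]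
  zero_mem' := fun g => map_zero _
  smul_mem' := by
    intro c x hx g
    rw [map_smul, hx g]

theorem kazhdanInv_closed (π : Γ →* (H ≃ₗᵢ[ℂ] H)) :
    IsClosed (kazhdanInv π : Set H) := by
  have e : (kazhdanInv π : Set H) = ⋂ g, {w | π g w = w} := by
    ext w
    simp [kazhdanInv]
  rw [e]
  exact isClosed_iInter (fun g => isClosed_eq (π g).continuous continuous_id)

theorem kazhdan_apply_mul (π : Γ →* (H ≃ₗᵢ[ℂ] H)) (g h : Γ) (v : H) :
    π (g * h) v = π g (π h v) := by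
  rw [map_mul]
  rfl

theorem kazhdan_apply_one (π : Γ →* (H ≃ₗᵢ[ℂ] H)) (v : H) : π 1 v = v := by
  rw [map_one]
  rfl

theorem kazhdan_inner (π : Γ →* (H ≃ₗᵢ[ℂ] H)) (g : Γ) (u w : H) :
    inner ℂ u (π g w) = inner ℂ (π g⁻¹ u) w := by
  rw [← (π g).inner_map_map (π g⁻¹ u) w, ← kazhdan_apply_mul, mul_inv_cancel, kazhdan_apply_one]

theorem kazhdan_orth (π : Γ →* (H ≃ₗᵢ[ℂ] H)) (g : Γ) {w : H} (hw : w ∈ (kazhdanInv π)ᗮ) :
    π g w ∈ (kazhdanInv π)ᗮ := by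
  rw [Submodule.mem_orthogonal] at hw ⊢
  intro u hu
  rw [kazhdan_inner, hu g⁻¹]
  exact hw u hu

/-- the restriction to the orthogonal complement of the invariant vectors -/
noncomputable def kazhdanRes (π : Γ →* (H ≃ₗᵢ[ℂ] H)) :
    Γ →* ((kazhdanInv π)ᗮ ≃ₗᵢ[ℂ] (kazhdanInv π)ᗮ) where
  toFun g :=
    { toFun := fun w => ⟨π g w.1, kazhdan_orth π g w.2⟩
      invFun := fun w => ⟨π g⁻¹ w.1, kazhdan_orth π g⁻¹ w.2⟩
      map_add' := fun a b => Subtype.ext (map_add (π g) a.1 b.1)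
      map_smul' := fun c a => Subtype.ext (map_smul (π g) c a.1)
      left_inv := fun w => Subtype.ext (by
        show π g⁻¹ (π g w.1) = w.1
        rw [← kazhdan_apply_mul, inv_mul_cancel, kazhdan_apply_one])
      right_inv := fun w => Subtype.ext (by
        show π g (π g⁻¹ w.1) = w.1
        rw [← kazhdan_apply_mul, mul_inv_cancel, kazhdan_apply_one])
      norm_map' := fun w => (π g).norm_map w.1 }
  map_one' := by
    ext w
    exact kazhdan_apply_one π w.1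
  map_mul' g h := by
    ext w
    exact kazhdan_apply_mul π g h w.1

theorem kazhdanRes_apply (π : Γ →* (H ≃ₗᵢ[ℂ] H)) (g : Γ) (w : (kazhdanInv π)ᗮ) :
    ((kazhdanRes π g w : (kazhdanInv π)ᗮ) : H) = π g w.1 := rfl

end

/-- the Kazhdan inequality for vectors orthogonal to the invariant vectors -/
theorem kazhdan_vec {Γ : Type u} [Group Γ] {F : Finset Γ} {ε : ℝ} (hε : 0 < ε)
    (hT : ∀ (H : Type u) (_ : NormedAddCommGroup H) (_ : InnerProductSpace ℂ H)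
      (_ : CompleteSpace H) (π : Γ →* (H ≃ₗᵢ[ℂ] H)),
      (∃ v : H, v ≠ 0 ∧ ∀ g ∈ F, ‖π g v - v‖ < ε * ‖v‖) → ∃ w : H, w ≠ 0 ∧ ∀ g, π g w = w)
    (H : Type u) [NormedAddCommGroup H] [InnerProductSpace ℂ H] [CompleteSpace H]
    (π : Γ →* (H ≃ₗᵢ[ℂ] H)) (v : H) (g : Γ) :
    ‖π g v - v‖ ^ 2 ≤ 4 / ε ^ 2 * ∑ s ∈ F, ‖π s v - v‖ ^ 2 := by
  have hcl := kazhdanInv_closed π
  have : CompleteSpace (kazhdanInv π) := hcl.completeSpace_coe
  obtain ⟨v0, hv0, v1, hv1, hv⟩ := (kazhdanInv π).exists_add_mem_mem_orthogonal v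
  have hdiff : ∀ s, π s v - v = π s v1 - v1 := by
    intro s
    rw [hv, map_add, hv0 s]
    abel
  have hsum : 0 ≤ ∑ s ∈ F, ‖π s v - v‖ ^ 2 := Finset.sum_nonneg (fun _ _ => sq_nonneg _)
  by_cases h0 : v1 = 0
  · rw [hdiff g, h0, map_zero, sub_zero, norm_zero]
    have : 0 ≤ 4 / ε ^ 2 * ∑ s ∈ F, ‖π s v - v‖ ^ 2 := by positivity
    simpa using this
  · obtain ⟨s, hs, hle⟩ : ∃ s ∈ F, ε * ‖v1‖ ≤ ‖π s v1 - v1‖ := by
      by_contra hcon
      push Not at hcon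
      obtain ⟨w, hw0, hw⟩ := hT ((kazhdanInv π)ᗮ : Submodule ℂ H) inferInstance inferInstance
        inferInstance (kazhdanRes π) ⟨⟨v1, hv1⟩, fun h => h0 (congrArg Subtype.val h),
          fun s hs => hcon s hs⟩
      have hwI : (w : H) ∈ kazhdanInv π := fun s => by
        rw [← kazhdanRes_apply, hw s]
      have hzero : inner ℂ (w : H) (w : H) = 0 := (Submodule.mem_orthogonal _ _).1 w.2 _ hwI
      rw [inner_self_eq_zero] at hzero
      exact hw0 (Subtype.ext hzero)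
    have h1 : ‖π g v1 - v1‖ ≤ 2 * ‖v1‖ := by
      have := norm_sub_le (π g v1) v1
      rw [(π g).norm_map] at this
      linarith
    have h2 : ‖π g v - v‖ ^ 2 ≤ 4 * ‖v1‖ ^ 2 := by
      rw [hdiff g]
      nlinarith [norm_nonneg (π g v1 - v1), norm_nonneg v1]
    have h3 : (ε * ‖v1‖) ^ 2 ≤ ‖π s v - v‖ ^ 2 := by
      rw [hdiff s]
      exact pow_le_pow_left₀ (by positivity) hle 2
    have h4 : ‖π s v - v‖ ^ 2 ≤ ∑ s ∈ F, ‖π s v - v‖ ^ 2 :=
      Finset.single_le_sum (f := fun s => ‖π s v - v‖ ^ 2) (fun _ _ => sq_nonneg _) hs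
    refine h2.trans ?_
    rw [div_mul_eq_mul_div, le_div_iff₀ (by positivity)]
    nlinarith

theorem kazhdan_pd {Γ : Type u} [Group Γ] (hT : PropertyT Γ) :
    ∃ (F : Finset Γ) (C : ℝ), 0 < C ∧ ∀ p : Γ → ℝ, PD p → p 1 = 1 →
      ∀ g, 1 - p g ≤ C * ∑ s ∈ F, (1 - p s) := by
  obtain ⟨F, ε, hε, hT⟩ := hT
  refine ⟨F, 4 / ε ^ 2, by positivity, fun p hp h1 g => ?_⟩
  obtain ⟨H, i1, i2, i3, π, v, hv⟩ := gns hp
  have hn : ‖v‖ ^ 2 = 1 := by
    have h3 := hv 1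
    rw [kazhdan_apply_one, h1] at h3
    rw [← inner_self_eq_norm_sq (𝕜 := ℂ) v, h3]
    simp
  have hd : ∀ s, ‖π s v - v‖ ^ 2 = 2 * (1 - p s) := by
    intro s
    rw [@norm_sub_sq ℂ, (π s).norm_map, hn, ← inner_conj_symm, hv s]
    simp
    ring
  have h2 := kazhdan_vec hε hT H π v g
  rw [hd g, Finset.sum_congr rfl (fun s _ => hd s), ← Finset.mul_sum] at h2
  linarith

end Pool.Agent.KZ
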