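import Pool.Agent.KZ.Riesz
import Pool.Agent.KZ.Gap
import Pool.Agent.KZ.Bound
import Pool.Agent.KZ.Kazhdan

set_option autoImplicit false

namespace Pool.Agent.KZ

universe u


/-- enlarging a generating set to a symmetric one containing the unit -/
theorem exists_good {Γ : Type*} [Group Γ] (F₀ : Finset Γ)
    (hgen : Subgroup.closure (F₀ : Set Γ) = ⊤) :
    ∃ F : Finset Γ, Good F ∧ F₀ ⊆ F := by
  classical
  refine ⟨insert 1 (F₀ ∪ F₀.image fun s => s⁻¹), ⟨Finset.mem_insert_self _ _, ?_, ?_⟩, ?_⟩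
  · intro s hs
    rw [Finset.mem_insert, Finset.mem_union, Finset.mem_image] at hs
    rw [Finset.mem_insert, Finset.mem_union, Finset.mem_image]
    rcases hs with h | h | ⟨a, ha, rfl⟩
    · exact Or.inl (by rw [h, inv_one])
    · exact Or.inr (Or.inr ⟨s, h, rfl⟩)
    · exact Or.inr (Or.inl (by rwa [inv_inv]))
  · rw [eq_top_iff, ← hgen]
    apply Subgroup.closure_mono
    intro s hs
    rw [Finset.mem_coe] at hs ⊢
    exact Finset.mem_insert_of_mem (Finset.mem_union_left _ hs)
  · intro s hs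
    exact Finset.mem_insert_of_mem (Finset.mem_union_left _ hs)

theorem two_le_card {Γ : Type*} [Group Γ] [Nontrivial Γ] {F : Finset Γ} (hF : Good F) :
    2 ≤ F.card := by
  by_contra hlt
  have h1 : F.card = 1 := by
    have hpos : 0 < F.card := Finset.card_pos.2 ⟨1, hF.one⟩
    omega
  obtain ⟨a, ha⟩ := Finset.card_eq_one.1 h1
  have h2 : F = {1} := by
    have := hF.one
    rw [ha, Finset.mem_singleton] at this
    rw [ha, this]
  have h3 := hF.gen
  rw [h2, Finset.coe_singleton, Subgroup.closure_singleton_one] at h3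
  exact bot_ne_top h3

/-- property (T) gives the certificate of a spectral gap -/
theorem exists_cert {Γ : Type u} [Group Γ] [Nontrivial Γ] (hT : PropertyT Γ) :
    ∃ (F : Finset Γ) (κ : ℝ), Good F ∧ 0 < κ ∧ Cert F κ := by
  obtain ⟨F₀, C, hC, h⟩ := kazhdan_pd hT
  obtain ⟨F, hF, hsub⟩ := exists_good F₀ (kazhdan_gen h)
  obtain ⟨C1, hC1, hb⟩ := cnd_bound hC h hF hsub
  refine ⟨F, 1 / (16 * C1), hF, by positivity, ?_⟩
  by_contra hcert
  obtain ⟨ψ, hψ, h0, h1, h2⟩ := riesz_cnd hF (two_le_card hF) hcert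
  have h3 := gap hF hψ hC1 h0 (hb ψ hψ h0 h1) h1
  have h4 : 1 / (16 * C1) < 1 / (8 * C1) :=
    one_div_lt_one_div_of_lt (by positivity) (by linarith)
  linarith

end Pool.Agent.KZ
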