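import Pool.Agent.KZ.Basic

set_option autoImplicit false

/-! KZ-15: disjointness and harmonic limits -/

namespace Pool.Agent.KZ

open Filter Topology

section Harm
variable {Γ : Type*} [Group Γ]

theorem M_iter_sum {F : Finset Γ} (hF : F.Nonempty) {ι : Type*} (n : ℕ) (X : Finset ι)
    (g : ι → Γ → ℝ) (z : Γ) :
    (M F)^[n] (fun y => ∑ i ∈ X, g i y) z = ∑ i ∈ X, (M F)^[n] (g i) z := by
  classical
  induction X using Finset.induction_on with
  | empty => simp [M_iter_const hF]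
  | insert a s ha ih =>
    have h1 : (fun y => ∑ i ∈ insert a s, g i y) = fun y => g a y + ∑ i ∈ s, g i y := by
      funext y
      rw [Finset.sum_insert ha]
    rw [h1, M_iter_add, Finset.sum_insert ha]
    simp only [ih]

/-- averages of the indicator of `B` at points with disjoint translates add up to at most one -/
theorem sum_indicator_le {F : Finset Γ} (hF : F.Nonempty) {G : Type*} [Group G] (ρ : Γ →* G)
    (S : Set G) (X : Finset Γ)
    (hX : ∀ x ∈ X, ∀ y ∈ X, x ≠ y → ∀ z : Γ, ¬ (ρ (x * z) ∈ S ∧ ρ (y * z) ∈ S)) (n : ℕ) :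
    ∑ x ∈ X, (M F)^[n] (fun z => Set.indicator S (fun _ => (1 : ℝ)) (ρ z)) x ≤ 1 := by
  classical
  have h1 : ∀ x ∈ X, (M F)^[n] (fun z => Set.indicator S (fun _ => (1 : ℝ)) (ρ z)) x =
      (M F)^[n] (fun z => Set.indicator S (fun _ => (1 : ℝ)) (ρ (x * z))) 1 := by
    intro x _
    have := M_iter_left F n (fun z => Set.indicator S (fun _ => (1 : ℝ)) (ρ z)) x 1
    rw [mul_one] at this
    exact this.symm
  rw [Finset.sum_congr rfl h1,
    ← M_iter_sum hF n X (fun x z => Set.indicator S (fun _ => (1 : ℝ)) (ρ (x * z))) 1]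
  refine M_iter_le hF n (fun z => ?_) 1
  by_cases hz : ∃ x ∈ X, ρ (x * z) ∈ S
  · obtain ⟨x, hx, hxS⟩ := hz
    rw [Finset.sum_eq_single x]
    · rw [Set.indicator_of_mem hxS]
    · intro y hy hyx
      refine Set.indicator_of_notMem (fun hyS => hX x hx y hy (Ne.symm hyx) z ⟨hxS, hyS⟩) _
    · intro h
      exact absurd hx h
  · rw [Finset.sum_eq_zero]
    · exact zero_le_one
    · intro x hx
      exact Set.indicator_of_notMem (fun h => hz ⟨x, hx, h⟩) _

theorem M_scal (F : Finset Γ) (c : ℝ) {ι : Type*} (R : Finset ι) (g : ι → Γ → ℝ) :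
    M F (fun x => c * ∑ k ∈ R, g k x) = fun x => c * ∑ k ∈ R, M F (g k) x := by
  funext x
  simp only [M, smul_eq_mul, ← Finset.mul_sum]
  rw [Finset.sum_comm]
  ring

theorem tendsto_M {F : Finset Γ} {l : Filter ℕ} {a : ℕ → Γ → ℝ} {h : Γ → ℝ}
    (ha : ∀ x, Tendsto (fun n => a n x) l (𝓝 (h x))) (x : Γ) :
    Tendsto (fun n => M F (a n) x) l (𝓝 (M F h x)) := by
  simp only [M, smul_eq_mul]
  exact (tendsto_finsetSum _ fun s _ => ha (x * s)).const_mul _

/-- Cesaro limits along an ultrafilter are harmonic for the two-step walk -/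
theorem exists_harmonic {F : Finset Γ} (hF : F.Nonempty) (f : Γ → ℝ) (h0 : ∀ x, 0 ≤ f x)
    (h1 : ∀ x, f x ≤ 1) :
    ∃ h : Γ → ℝ, (∀ x, 0 ≤ h x) ∧ (∀ x, h x ≤ 1) ∧ (∀ x, (M F)^[2] h x = h x) ∧
      (∀ x, Tendsto (fun n : ℕ => ((n : ℝ) + 1)⁻¹ * ∑ k ∈ Finset.range (n + 1),
        (M F)^[2 * k] f x) (hyperfilter ℕ : Filter ℕ) (𝓝 (h x))) := by
  classical
  set a : ℕ → Γ → ℝ := fun n x => ((n : ℝ) + 1)⁻¹ * ∑ k ∈ Finset.range (n + 1),
        (M F)^[2 * k] f x with ha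
  have hk0 : ∀ k x, 0 ≤ (M F)^[k] f x := by
    intro k x
    have := M_iter_mono (F := F) (f := fun _ => (0 : ℝ)) (g := f) k h0 x
    rwa [M_iter_const hF] at this
  have hk1 : ∀ k x, (M F)^[k] f x ≤ 1 := fun k x => M_iter_le hF k h1 x
  have hn : ∀ n : ℕ, (0 : ℝ) < (n : ℝ) + 1 := fun n => by positivity
  have ha0 : ∀ n x, 0 ≤ a n x := fun n x =>
    mul_nonneg (inv_nonneg.2 (hn n).le) (Finset.sum_nonneg fun k _ => hk0 _ x)
  have ha1 : ∀ n x, a n x ≤ 1 := by
    intro n x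
    have h2 : ∑ k ∈ Finset.range (n + 1), (M F)^[2 * k] f x ≤ (n : ℝ) + 1 := by
      calc ∑ k ∈ Finset.range (n + 1), (M F)^[2 * k] f x
          ≤ ∑ k ∈ Finset.range (n + 1), (1 : ℝ) := Finset.sum_le_sum fun k _ => hk1 _ x
        _ = (n : ℝ) + 1 := by simp
    calc a n x ≤ ((n : ℝ) + 1)⁻¹ * ((n : ℝ) + 1) :=
          mul_le_mul_of_nonneg_left h2 (inv_nonneg.2 (hn n).le)
      _ = 1 := inv_mul_cancel₀ (hn n).ne'
  have hex : ∀ x, ∃ y ∈ Set.Icc (0 : ℝ) 1,
      Tendsto (fun n => a n x) (hyperfilter ℕ : Filter ℕ) (𝓝 y) := by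
    intro x
    have h2 : ((hyperfilter ℕ).map (fun n => a n x) : Filter ℝ) ≤ 𝓟 (Set.Icc (0 : ℝ) 1) := by
      rw [le_principal_iff]
      exact Filter.mem_map.2 (Filter.univ_mem' fun n => ⟨ha0 n x, ha1 n x⟩)
    obtain ⟨y, hy, hle⟩ := (isCompact_Icc (a := (0 : ℝ)) (b := 1)).ultrafilter_le_nhds
      ((hyperfilter ℕ).map (fun n => a n x)) h2
    exact ⟨y, hy, hle⟩
  choose h hh hlim using hex
  refine ⟨h, fun x => (hh x).1, fun x => (hh x).2, fun x => ?_, hlim⟩
  -- the shifted averages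
  have hM2 : ∀ n, (M F)^[2] (a n) = fun x => ((n : ℝ) + 1)⁻¹ * ∑ k ∈ Finset.range (n + 1),
        (M F)^[2 * k + 2] f x := by
    intro n
    have e1 : (M F)^[2] (a n) = M F (M F (a n)) := rfl
    rw [e1]
    have e2 : M F (a n) = fun x => ((n : ℝ) + 1)⁻¹ * ∑ k ∈ Finset.range (n + 1),
        M F ((M F)^[2 * k] f) x := M_scal F _ _ _
    rw [e2, M_scal]
    funext y
    refine congrArg _ (Finset.sum_congr rfl fun k _ => ?_)
    rw [add_comm (2 * k) 2, Function.iterate_add_apply]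
    rfl
  have hdiff : ∀ n, (M F)^[2] (a n) x - a n x =
      ((n : ℝ) + 1)⁻¹ * ((M F)^[2 * (n + 1)] f x - f x) := by
    intro n
    rw [hM2 n]
    simp only [ha]
    rw [← mul_sub, ← Finset.sum_sub_distrib]
    congr 1
    have := Finset.sum_range_sub (fun k => (M F)^[2 * k] f x) (n + 1)
    simpa [mul_add] using this
  have hz : Tendsto (fun n => (M F)^[2] (a n) x - a n x) (hyperfilter ℕ : Filter ℕ) (𝓝 0) := by
    have hz' : Tendsto (fun n : ℕ => ((n : ℝ) + 1)⁻¹) (hyperfilter ℕ : Filter ℕ) (𝓝 0) := by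
      have h3 : Tendsto (fun n : ℕ => ((n : ℝ) + 1)⁻¹) atTop (𝓝 0) := by
        simpa [one_div] using tendsto_one_div_add_atTop_nhds_zero_nat (𝕜 := ℝ)
      exact h3.mono_left (by rw [← Nat.cofinite_eq_atTop]; exact hyperfilter_le_cofinite)
    refine squeeze_zero_norm (fun n => ?_) hz'
    rw [hdiff n, norm_mul, Real.norm_of_nonneg (inv_nonneg.2 (hn n).le)]
    refine mul_le_of_le_one_right (inv_nonneg.2 (hn n).le) ?_
    rw [Real.norm_eq_abs, abs_le]
    constructor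
    · have := hk0 (2 * (n + 1)) x
      have := h1 x
      linarith
    · have := hk1 (2 * (n + 1)) x
      have := h0 x
      linarith
  have hl1 : Tendsto (fun n => (M F)^[2] (a n) x) (hyperfilter ℕ : Filter ℕ)
      (𝓝 ((M F)^[2] h x)) := by
    have : ∀ y, Tendsto (fun n => M F (a n) y) (hyperfilter ℕ : Filter ℕ) (𝓝 (M F h y)) :=
      fun y => tendsto_M hlim y
    exact tendsto_M this x
  have hl2 : Tendsto (fun n => (M F)^[2] (a n) x - a n x) (hyperfilter ℕ : Filter ℕ)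
      (𝓝 ((M F)^[2] h x - h x)) := hl1.sub (hlim x)
  have := tendsto_nhds_unique hl2 hz
  linarith

end Harm

end Pool.Agent.KZ
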