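import Pool.Agent.KZ.Defs

set_option autoImplicit false

/-! KZ-11 (MP_e3aa4b_al): reachability of group elements by the averaging operator, the variance
formula and the bound of the cost of a finite family of augmentation vectors. -/

namespace Pool.Agent.KZ

universe u

open Filter Topology

section Local
variable {Γ : Type*} [Group Γ]

private theorem vec_apply {E : Type*} [AddCommGroup E] [Module ℝ E] (A : Γ → E) (x : Γ)
    (ξ : Γ →₀ ℝ) : vec A x ξ = ∑ g ∈ ξ.support, ξ g • A (x * g) := by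
  simp [vec, Finsupp.linearCombination_apply, Finsupp.sum]

omit [Group Γ] in
private theorem tot_apply (ξ : Γ →₀ ℝ) : tot ξ = ∑ g ∈ ξ.support, ξ g := by
  simp [tot, Finsupp.linearCombination_apply, Finsupp.sum]

private theorem M_nonneg {F : Finset Γ} {u : Γ → ℝ} (hu : ∀ x, 0 ≤ u x) (x : Γ) :
    0 ≤ M F u x := by
  unfold M
  exact smul_nonneg (by positivity) (Finset.sum_nonneg fun s _ => hu _)

private theorem M_iter_nonneg {F : Finset Γ} {u : Γ → ℝ} (hu : ∀ x, 0 ≤ u x) (n : ℕ) (x : Γ) :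
    0 ≤ (M F)^[n] u x := by
  induction n generalizing x with
  | zero => exact hu x
  | succ n ih =>
    rw [Function.iterate_succ_apply']
    exact M_nonneg ih x

private theorem le_M {F : Finset Γ} {u : Γ → ℝ} (hu : ∀ x, 0 ≤ u x) {s : Γ} (hs : s ∈ F) (x : Γ) :
    (F.card : ℝ)⁻¹ * u (x * s) ≤ M F u x := by
  unfold M
  rw [smul_eq_mul]
  exact mul_le_mul_of_nonneg_left
    (Finset.single_le_sum (f := fun t => u (x * t)) (fun t _ => hu _) hs) (by positivity)

private theorem M_add' {E : Type*} [AddCommGroup E] [Module ℝ E] (F : Finset Γ) (f g : Γ → E) :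
    M F (fun x => f x + g x) = fun x => M F f x + M F g x := by
  funext x
  simp [M, Finset.sum_add_distrib, smul_add]

private theorem M_iter_add' {E : Type*} [AddCommGroup E] [Module ℝ E] (F : Finset Γ) (n : ℕ)
    (f g : Γ → E) :
    (M F)^[n] (fun x => f x + g x) = fun x => (M F)^[n] f x + (M F)^[n] g x := by
  induction n with
  | zero => rfl
  | succ n ih =>
    rw [Function.iterate_succ_apply', ih, M_add']
    funext x
    rw [Function.iterate_succ_apply', Function.iterate_succ_apply']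

private theorem M_iter_const' {E : Type*} [AddCommGroup E] [Module ℝ E] {F : Finset Γ}
    (hF : F.Nonempty) (n : ℕ) (c : E) : (M F)^[n] (fun _ => c) = fun _ => c := by
  induction n with
  | zero => rfl
  | succ n ih =>
    rw [Function.iterate_succ_apply', ih]
    funext x
    have : (F.card : ℝ) ≠ 0 := by exact_mod_cast hF.card_pos.ne'
    simp only [M, Finset.sum_const]
    rw [← Nat.cast_smul_eq_nsmul ℝ, smul_smul, inv_mul_cancel₀ this, one_smul]

private theorem M_iter_map' {E E' : Type*} [AddCommGroup E] [Module ℝ E] [AddCommGroup E']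
    [Module ℝ E'] (F : Finset Γ) (n : ℕ) (l : E →ₗ[ℝ] E') (f : Γ → E) :
    (M F)^[n] (fun x => l (f x)) = fun x => l ((M F)^[n] f x) := by
  induction n with
  | zero => rfl
  | succ n ih =>
    rw [Function.iterate_succ_apply', ih]
    funext x
    rw [Function.iterate_succ_apply']
    simp [M, map_sum]

end Local

section
variable {Γ : Type*} [Group Γ]

theorem Reach.mono_c {F : Finset Γ} {g : Γ} {r : ℕ} {c c' : ℝ} (h : Reach F g r c) (hc : c' ≤ c) :
    Reach F g r c' := fun u hu x =>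
  (mul_le_mul_of_nonneg_right hc (hu _)).trans (h u hu x)

theorem Reach.succ {F : Finset Γ} (h1 : (1 : Γ) ∈ F) {g : Γ} {r : ℕ} {c : ℝ}
    (h : Reach F g r c) : Reach F g (r + 1) ((F.card : ℝ)⁻¹ * c) := fun u hu x => by
  rw [Function.iterate_succ_apply', mul_assoc]
  have h2 := le_M (F := F) (M_iter_nonneg (F := F) hu r) h1 x
  rw [mul_one] at h2
  exact (mul_le_mul_of_nonneg_left (h u hu x) (by positivity)).trans h2

theorem Reach.gen {F : Finset Γ} {s : Γ} (hs : s ∈ F) : Reach F s 1 (F.card : ℝ)⁻¹ :=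
  fun _ hu x => le_M hu hs x

theorem Reach.mul {F : Finset Γ} {g h : Γ} {r r' : ℕ} {c c' : ℝ} (hc : 0 ≤ c)
    (hg : Reach F g r c) (hh : Reach F h r' c') : Reach F (g * h) (r + r') (c * c') :=
  fun u hu x => by
    rw [Function.iterate_add_apply]
    have h1 := hg _ (M_iter_nonneg (F := F) hu r') x
    have h2 := hh u hu (x * g)
    rw [mul_assoc] at h2
    rw [mul_assoc]
    exact (mul_le_mul_of_nonneg_left h2 hc).trans h1

theorem reach_of_good {F : Finset Γ} (hF : Good F) (g : Γ) :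
    ∃ r₀ : ℕ, ∀ r, r₀ ≤ r → ∃ c : ℝ, 0 < c ∧ Reach F g r c := by
  have hN : (0 : ℝ) < (F.card : ℝ)⁻¹ := by
    have : 0 < F.card := Finset.card_pos.mpr ⟨1, hF.one⟩
    positivity
  have hup : ∀ (g : Γ) (r₀ : ℕ) (c₀ : ℝ), 0 < c₀ → Reach F g r₀ c₀ →
      ∀ r, r₀ ≤ r → ∃ c : ℝ, 0 < c ∧ Reach F g r c := by
    intro g r₀ c₀ hc₀ h0 r hr
    induction r, hr using Nat.le_induction with
    | base => exact ⟨c₀, hc₀, h0⟩
    | succ r _ ih =>
      obtain ⟨c, hc, h⟩ := ih
      exact ⟨_, mul_pos hN hc, h.succ hF.one⟩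
  have hmem : g ∈ Submonoid.closure ((F : Set Γ) ∪ (F : Set Γ)⁻¹) := by
    rw [← Subgroup.closure_toSubmonoid, hF.gen]
    exact Subgroup.mem_top g
  induction hmem using Submonoid.closure_induction with
  | mem s hs =>
    have hs' : s ∈ F := by
      rcases hs with hs | hs
      · exact hs
      · simpa using hF.inv _ (Finset.mem_coe.mp (Set.mem_inv.mp hs))
    exact ⟨1, hup s 1 _ hN (Reach.gen hs')⟩
  | one =>
    exact ⟨1, hup 1 1 _ hN (Reach.gen hF.one)⟩
  | mul a b _ _ iha ihb =>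
    obtain ⟨ra, ha⟩ := iha
    obtain ⟨rb, hb⟩ := ihb
    obtain ⟨ca, hca, ha⟩ := ha ra le_rfl
    obtain ⟨cb, hcb, hb⟩ := hb rb le_rfl
    exact ⟨ra + rb, hup _ _ _ (mul_pos hca hcb) (ha.mul hca.le hb)⟩

theorem reach_finset {F : Finset Γ} (hF : Good F) (S : Finset Γ) :
    ∃ r₀ : ℕ, ∀ r, r₀ ≤ r → ∃ c : ℝ, 0 < c ∧ ∀ g ∈ S, Reach F g r c := by
  classical
  induction S using Finset.induction_on with
  | empty => exact ⟨0, fun r _ => ⟨1, one_pos, by simp⟩⟩
  | insert a S _ ih =>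
    obtain ⟨r₀, h⟩ := ih
    obtain ⟨r₁, h1⟩ := reach_of_good hF a
    refine ⟨max r₀ r₁, fun r hr => ?_⟩
    obtain ⟨c, hc, hcS⟩ := h r (le_trans (le_max_left _ _) hr)
    obtain ⟨c', hc', hca⟩ := h1 r (le_trans (le_max_right _ _) hr)
    refine ⟨min c c', lt_min hc hc', fun g hg => ?_⟩
    rcases Finset.mem_insert.mp hg with rfl | hg
    · exact hca.mono_c (min_le_right _ _)
    · exact (hcS g hg).mono_c (min_le_left _ _)

/-- variance formula -/
theorem variance {E : Type*} [NormedAddCommGroup E] [InnerProductSpace ℝ E]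
    {F : Finset Γ} (hF : F.Nonempty) (r : ℕ) (f : Γ → E) (x : Γ) :
    (M F)^[r] (fun y => ‖f y - (M F)^[r] f x‖ ^ 2) x =
      (M F)^[r] (fun y => ‖f y‖ ^ 2) x - ‖(M F)^[r] f x‖ ^ 2 := by
  set v := (M F)^[r] f x with hv
  have h1 : (fun y => ‖f y - v‖ ^ 2) =
      fun y => ‖f y‖ ^ 2 + (((-2 : ℝ) • innerₛₗ ℝ v) (f y) + ‖v‖ ^ 2) := by
    funext y
    rw [norm_sub_sq_real, LinearMap.smul_apply, innerₛₗ_apply_apply, real_inner_comm]
    simp only [smul_eq_mul]
    ring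
  rw [h1, M_iter_add', M_iter_add', M_iter_map', M_iter_const' hF]
  simp only [← hv]
  rw [LinearMap.smul_apply, innerₛₗ_apply_apply, real_inner_self_eq_norm_sq]
  simp only [smul_eq_mul]
  ring

/-- one augmentation vector -/
theorem vec_sq_le {E : Type*} [NormedAddCommGroup E] [InnerProductSpace ℝ E] {F : Finset Γ}
    (hF : F.Nonempty) {r : ℕ} {c : ℝ} (hc : 0 < c) (ξ : Γ →₀ ℝ) (hξ : tot ξ = 0)
    (hr : ∀ g ∈ ξ.support, Reach F g r c) (f : Γ → E) (x : Γ) :
    ‖vec f x ξ‖ ^ 2 ≤ ((∑ g ∈ ξ.support, ξ g ^ 2) * ξ.support.card / c) *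
      ((M F)^[r] (fun y => ‖f y‖ ^ 2) x - ‖(M F)^[r] f x‖ ^ 2) := by
  rw [← variance hF]
  set v := (M F)^[r] f x
  have h1 : vec f x ξ = ∑ g ∈ ξ.support, ξ g • (f (x * g) - v) := by
    rw [vec_apply]
    simp only [smul_sub, Finset.sum_sub_distrib]
    rw [← Finset.sum_smul, ← tot_apply, hξ, zero_smul, sub_zero]
  have h2 : ‖vec f x ξ‖ ≤ ∑ g ∈ ξ.support, |ξ g| * ‖f (x * g) - v‖ := by
    rw [h1]
    refine (norm_sum_le _ _).trans (Finset.sum_le_sum fun g _ => ?_)
    rw [norm_smul, Real.norm_eq_abs]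
  have h3 : (∑ g ∈ ξ.support, |ξ g| * ‖f (x * g) - v‖) ^ 2 ≤
      (∑ g ∈ ξ.support, ξ g ^ 2) * ∑ g ∈ ξ.support, ‖f (x * g) - v‖ ^ 2 := by
    have := Finset.sum_mul_sq_le_sq_mul_sq ξ.support (fun g => |ξ g|) (fun g => ‖f (x * g) - v‖)
    simpa only [sq_abs] using this
  set W := (M F)^[r] (fun y => ‖f y - v‖ ^ 2) x
  have h4 : ∀ g ∈ ξ.support, ‖f (x * g) - v‖ ^ 2 ≤ W / c := by
    intro g hg
    rw [le_div_iff₀ hc, mul_comm]
    exact hr g hg (fun y => ‖f y - v‖ ^ 2) (fun y => by positivity) x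
  have h5 : ∑ g ∈ ξ.support, ‖f (x * g) - v‖ ^ 2 ≤ ξ.support.card * (W / c) := by
    have := Finset.sum_le_card_nsmul _ _ _ h4
    rwa [nsmul_eq_mul] at this
  calc ‖vec f x ξ‖ ^ 2 ≤ (∑ g ∈ ξ.support, |ξ g| * ‖f (x * g) - v‖) ^ 2 := by
        gcongr
    _ ≤ _ := h3
    _ ≤ (∑ g ∈ ξ.support, ξ g ^ 2) * (ξ.support.card * (W / c)) := by
        gcongr
    _ = _ := by ring

/-- the cost of a finite family of augmentation vectors is bounded by the variance -/
theorem neg_bound {F : Finset Γ} (hF : Good F) (l : List (Γ →₀ ℝ)) (hl : ∀ ξ ∈ l, tot ξ = 0) :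
    ∃ (r : ℕ) (K : ℝ), 1 ≤ r ∧ 0 < K ∧
      ∀ (E : Type u) [NormedAddCommGroup E] [InnerProductSpace ℝ E] (f : Γ → E) (x : Γ),
        (l.map fun ξ => ‖vec f x ξ‖ ^ 2).sum ≤
          K * ((M F)^[r] (fun y => ‖f y‖ ^ 2) x - ‖(M F)^[r] f x‖ ^ 2) := by
  classical
  have hne : F.Nonempty := ⟨1, hF.one⟩
  obtain ⟨r₀, h⟩ := reach_finset hF (l.toFinset.biUnion fun ξ => ξ.support)
  obtain ⟨c, hc, hr⟩ := h (max r₀ 1) (le_max_left _ _)
  refine ⟨max r₀ 1, (l.map fun ξ => (∑ g ∈ ξ.support, ξ g ^ 2) * ξ.support.card / c).sum + 1,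
    le_max_right _ _, ?_, ?_⟩
  · have : 0 ≤ (l.map fun ξ : Γ →₀ ℝ => (∑ g ∈ ξ.support, ξ g ^ 2) * ξ.support.card / c).sum := by
      apply List.sum_nonneg
      intro y hy
      obtain ⟨ξ, _, rfl⟩ := List.mem_map.mp hy
      positivity
    linarith
  · intro E _ _ f x
    set V := (M F)^[max r₀ 1] (fun y => ‖f y‖ ^ 2) x - ‖(M F)^[max r₀ 1] f x‖ ^ 2 with hV
    have hV0 : 0 ≤ V := by
      rw [hV, ← variance hne]
      exact M_iter_nonneg (fun y => by positivity) _ _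
    have key : ∀ l' : List (Γ →₀ ℝ), (∀ ξ ∈ l', ξ ∈ l) →
        (l'.map fun ξ => ‖vec f x ξ‖ ^ 2).sum ≤
          (l'.map fun ξ : Γ →₀ ℝ => (∑ g ∈ ξ.support, ξ g ^ 2) * ξ.support.card / c).sum * V := by
      intro l' hl'
      induction l' with
      | nil => simp
      | cons ξ l' ih =>
        rw [List.map_cons, List.sum_cons, List.map_cons, List.sum_cons, add_mul]
        refine add_le_add ?_ (ih fun ξ' h' => hl' ξ' (List.mem_cons_of_mem _ h'))
        have hmem : ξ ∈ l := hl' ξ List.mem_cons_self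
        exact vec_sq_le hne hc ξ (hl ξ hmem) (fun g hg => hr g (Finset.mem_biUnion.mpr
          ⟨ξ, List.mem_toFinset.mpr hmem, hg⟩)) f x
    refine (key l fun ξ h => h).trans ?_
    rw [add_mul, one_mul]
    linarith

end

end Pool.Agent.KZ
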