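import Pool.Agent.KZ.Basic

set_option autoImplicit false

/-!
KZ-12 (MP_e3aa4b_al): telescoping of the suprema of the averages.
-/

namespace Pool.Agent.KZ

variable {Γ : Type*} [Group Γ] {E : Type*} [NormedAddCommGroup E] [InnerProductSpace ℝ E]

theorem telescope {F : Finset Γ} (hF : F.Nonempty) {f : Γ → E} {c : ℝ} (hc : ∀ x, ‖f x‖ ≤ c)
    {r : ℕ} (w : ℕ → ℝ)
    (hw : ∀ n x, w n ≤ (M F)^[r] (fun y => ‖(M F)^[n] f y‖ ^ 2) x - ‖(M F)^[n + r] f x‖ ^ 2)
    (K : ℕ) : ∑ n ∈ Finset.range K, w n ≤ r * c ^ 2 := by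
  let S : ℕ → ℝ := fun n => ⨆ x, ‖(M F)^[n] f x‖ ^ 2
  have hle : ∀ n x, ‖(M F)^[n] f x‖ ^ 2 ≤ c ^ 2 := fun n x =>
    pow_le_pow_left₀ (norm_nonneg _) (norm_M_iter_le hF n hc x) 2
  have hbdd : ∀ n, BddAbove (Set.range fun x => ‖(M F)^[n] f x‖ ^ 2) := fun n =>
    ⟨c ^ 2, by rintro _ ⟨x, rfl⟩; exact hle n x⟩
  have hS : ∀ n x, ‖(M F)^[n] f x‖ ^ 2 ≤ S n := fun n x => le_ciSup (hbdd n) x
  have hSc : ∀ n, S n ≤ c ^ 2 := fun n => ciSup_le fun x => hle n x
  have hS0 : ∀ n, 0 ≤ S n := fun n => le_trans (sq_nonneg _) (hS n 1)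
  have hstep : ∀ n, S (n + r) + w n ≤ S n := by
    intro n
    have : S (n + r) ≤ S n - w n := ciSup_le fun x => by
      have h1 := hw n x
      have h2 := M_iter_le hF r (hS n) x
      linarith
    linarith
  have key : ∀ K, ∑ n ∈ Finset.range K, w n + ∑ i ∈ Finset.range r, S (K + i) ≤
      ∑ i ∈ Finset.range r, S i := by
    intro K
    induction K with
    | zero => simp
    | succ K ih =>
      rw [Finset.sum_range_succ]
      have e1 : ∑ i ∈ Finset.range (r + 1), S (K + i) =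
          ∑ i ∈ Finset.range r, S (K + i) + S (K + r) := Finset.sum_range_succ _ _
      have e2 : ∑ i ∈ Finset.range (r + 1), S (K + i) =
          ∑ i ∈ Finset.range r, S (K + 1 + i) + S K := by
        rw [Finset.sum_range_succ']
        congr 1
        refine Finset.sum_congr rfl fun i _ => ?_
        congr 1
        omega
      have := hstep K
      linarith
  have h1 := key K
  have h2 : 0 ≤ ∑ i ∈ Finset.range r, S (K + i) := Finset.sum_nonneg fun i _ => hS0 _
  have h3 : ∑ i ∈ Finset.range r, S i ≤ r * c ^ 2 := by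
    calc ∑ i ∈ Finset.range r, S i ≤ ∑ _i ∈ Finset.range r, c ^ 2 :=
          Finset.sum_le_sum fun i _ => hSc i
      _ = r * c ^ 2 := by simp
  linarith

end Pool.Agent.KZ
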