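import Pool.Agent.KZ.JForm
import Pool.Agent.KZ.Reach
import Pool.Agent.KZ.Telescope

set_option autoImplicit false

/-!
KZ-13 (MP_e3aa4b_al): the main inequality.
-/

namespace Pool.Agent.KZ

universe u

variable {Γ : Type*} [Group Γ]

theorem ineq_sum_map_sub {α : Type*} (l : List α) (f g h : α → ℝ)
    (hf : ∀ a, f a = g a - h a) : (l.map f).sum = (l.map g).sum - (l.map h).sum := by
  induction l with
  | nil => simp
  | cons a l ih =>
    simp only [List.map_cons, List.sum_cons]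
    rw [ih, hf a]
    ring

/-- the main inequality -/
theorem main_ineq {F : Finset Γ} (hF : Good F) {κ : ℝ} (hκ : Cert F κ) :
    ∃ K' : ℝ, 0 ≤ K' ∧
      ∀ (E : Type u) [NormedAddCommGroup E] [InnerProductSpace ℝ E] (φ : Γ → ℝ) (A C : Γ → E)
        (c : ℝ), IsJ φ A C → (∀ x, ‖C x‖ ≤ c) →
        ∀ n : ℕ, κ * (φ 1 - (T F)^[n] φ 1) ≤ (φ 1 - T F φ 1) + K' * c ^ 2 := by
  obtain ⟨l, hl, hC⟩ := hκ
  obtain ⟨r, K, _, hK, hneg⟩ := neg_bound.{u} hF l hl
  have hne : F.Nonempty := ⟨1, hF.one⟩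
  refine ⟨2 + K * r, by positivity, ?_⟩
  intro E _ _ φ A C c hJ hc n
  have hJn : ∀ i, IsJ ((T F)^[i] φ) ((M F)^[i] A) ((M F)^[i] C) := fun i => isJ_T_iter F hJ i
  have hcn : ∀ i x, ‖(M F)^[i] C x‖ ≤ c := fun i x => norm_M_iter_le hne i hc x
  let Q : ℕ → ℝ := fun i => (l.map fun ξ => B ((T F)^[i] φ) ξ ξ).sum
  -- lower bound for `Q`
  have hQ : ∀ i x, -Q i ≤ K * ((M F)^[r] (fun y => ‖(M F)^[i] C y‖ ^ 2) x
      - ‖(M F)^[i + r] C x‖ ^ 2) := by
    intro i x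
    have h1 := hneg E ((M F)^[i] C) x
    have e1 : (M F)^[i + r] C x = (M F)^[r] ((M F)^[i] C) x := by
      rw [add_comm i r, Function.iterate_add_apply]
    rw [e1]
    refine le_trans ?_ h1
    have e2 : Q i = (l.map fun ξ => ‖vec ((M F)^[i] A) x ξ‖ ^ 2).sum -
        (l.map fun ξ => ‖vec ((M F)^[i] C) x ξ‖ ^ 2).sum := by
      exact ineq_sum_map_sub l _ _ _ fun ξ => isJ_B (hJn i) ξ x
    have e3 : 0 ≤ (l.map fun ξ => ‖vec ((M F)^[i] A) x ξ‖ ^ 2).sum := by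
      refine List.sum_nonneg ?_
      intro a ha
      obtain ⟨ξ, _, rfl⟩ := List.mem_map.1 ha
      positivity
    linarith
  have hsum : ∑ i ∈ Finset.range n, (-Q i) / K ≤ r * c ^ 2 := by
    refine telescope hne hc (r := r) (fun i => (-Q i) / K) ?_ n
    intro i x
    rw [div_le_iff₀ hK]
    have := hQ i x
    linarith
  rw [← Finset.sum_div, div_le_iff₀ hK] at hsum
  rw [Finset.sum_neg_distrib] at hsum
  -- the sum of the certificate identities
  have hid : ∀ i, Q i = (((T F)^[i] φ 1 - (T F)^[i + 1] φ 1)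
      - ((T F)^[i + 1] φ 1 - (T F)^[i + 2] φ 1))
      - κ * ((T F)^[i] φ 1 - (T F)^[i + 1] φ 1) := by
    intro i
    have h1 := hC ((T F)^[i] φ)
    have e1 : (T F)^[i + 1] φ = T F ((T F)^[i] φ) := Function.iterate_succ_apply' _ _ _
    have e2 : (T F)^[i + 2] φ = T F (T F ((T F)^[i] φ)) := by
      rw [Function.iterate_succ_apply', Function.iterate_succ_apply']
    rw [e1, e2]
    exact h1.symm
  have htel : ∀ m, ∑ i ∈ Finset.range m, Q i = (φ 1 - T F φ 1)
      - ((T F)^[m] φ 1 - (T F)^[m + 1] φ 1) - κ * (φ 1 - (T F)^[m] φ 1) := by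
    intro m
    induction m with
    | zero => simp
    | succ m ih =>
      rw [Finset.sum_range_succ, ih, hid m]
      ring
  have hlow : -(2 * c ^ 2) ≤ (T F)^[n] φ 1 - T F ((T F)^[n] φ) 1 := isJ_low hne (hJn n) (hcn n)
  have e1 : (T F)^[n + 1] φ = T F ((T F)^[n] φ) := Function.iterate_succ_apply' _ _ _
  have h2 := htel n
  rw [e1] at h2
  have h3 : (2 + K * r) * c ^ 2 = 2 * c ^ 2 + r * c ^ 2 * K := by ring
  rw [h3]
  linarith

end Pool.Agent.KZ
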