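import Pool.Agent.KZ.Defs

set_option autoImplicit false

/-!
# Project KZ, row KZ-10: differences of two positive kernels under averaging
-/

namespace Pool.Agent.KZ

variable {Γ : Type*} [Group Γ]

variable {E E' : Type*} [NormedAddCommGroup E] [InnerProductSpace ℝ E] [NormedAddCommGroup E']
    [InnerProductSpace ℝ E']

private theorem kz10_inner_M (F : Finset Γ) (A : Γ → E) (x y : Γ) :
    inner ℝ (M F A x) (M F A y) =
      (F.card : ℝ)⁻¹ * ((F.card : ℝ)⁻¹ * ∑ s ∈ F, ∑ t ∈ F, inner ℝ (A (x * t)) (A (y * s))) := by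
  rw [M, M, inner_smul_left, inner_smul_right, inner_sum]
  simp only [sum_inner, conj_trivial]

theorem isJ_T (F : Finset Γ) {φ : Γ → ℝ} {A : Γ → E} {C : Γ → E'} (h : IsJ φ A C) :
    IsJ (T F φ) (M F A) (M F C) := by
  intro x y
  rw [kz10_inner_M, kz10_inner_M, ← mul_sub, ← mul_sub, ← Finset.sum_sub_distrib, T]
  congr 2
  refine Finset.sum_congr rfl fun s _ => ?_
  rw [← Finset.sum_sub_distrib]
  refine Finset.sum_congr rfl fun t _ => ?_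
  rw [← h]
  congr 1
  group

theorem isJ_T_iter (F : Finset Γ) {φ : Γ → ℝ} {A : Γ → E} {C : Γ → E'} (h : IsJ φ A C) (n : ℕ) :
    IsJ ((T F)^[n] φ) ((M F)^[n] A) ((M F)^[n] C) := by
  induction n with
  | zero => exact h
  | succ n ih =>
    rw [Function.iterate_succ_apply', Function.iterate_succ_apply', Function.iterate_succ_apply']
    exact isJ_T F ih

private theorem kz10_vec (A : Γ → E) (x : Γ) (ξ : Γ →₀ ℝ) :
    ‖vec A x ξ‖ ^ 2 = ξ.sum fun g a => a * ξ.sum fun h b => b * inner ℝ (A (x * h)) (A (x * g)) := by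
  rw [← real_inner_self_eq_norm_sq, vec, Finsupp.linearCombination_apply, Finsupp.sum, inner_sum,
    Finsupp.sum]
  refine Finset.sum_congr rfl fun g _ => ?_
  rw [inner_smul_right, sum_inner, Finsupp.sum]
  congr 1
  refine Finset.sum_congr rfl fun h _ => ?_
  rw [inner_smul_left, conj_trivial]

theorem isJ_B {φ : Γ → ℝ} {A : Γ → E} {C : Γ → E'} (h : IsJ φ A C) (ξ : Γ →₀ ℝ) (x : Γ) :
    B φ ξ ξ = ‖vec A x ξ‖ ^ 2 - ‖vec C x ξ‖ ^ 2 := by
  have e : B φ ξ ξ = ξ.sum fun g a => a * ξ.sum fun k b => b * φ (g⁻¹ * k) := by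
    rw [B, Finsupp.linearCombination_apply, Finsupp.sum, LinearMap.sum_apply, Finsupp.sum]
    refine Finset.sum_congr rfl fun g _ => ?_
    rw [LinearMap.smul_apply, Finsupp.linearCombination_apply, smul_eq_mul]
    rfl
  rw [e, kz10_vec, kz10_vec]
  simp only [Finsupp.sum]
  rw [← Finset.sum_sub_distrib]
  refine Finset.sum_congr rfl fun g _ => ?_
  rw [← mul_sub, ← Finset.sum_sub_distrib]
  congr 1
  refine Finset.sum_congr rfl fun k _ => ?_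
  rw [← mul_sub, ← h]
  congr 2
  group

private theorem kz10_jensen {F : Finset Γ} (hF : F.Nonempty) (A : Γ → E) :
    ‖M F A 1‖ ^ 2 ≤ (F.card : ℝ)⁻¹ * ∑ s ∈ F, ‖A s‖ ^ 2 := by
  have hc : (0 : ℝ) < F.card := by exact_mod_cast hF.card_pos
  have h1 : ‖M F A 1‖ ≤ (F.card : ℝ)⁻¹ * ∑ s ∈ F, ‖A s‖ := by
    rw [M, norm_smul, Real.norm_of_nonneg (by positivity)]
    refine mul_le_mul_of_nonneg_left ?_ (by positivity)
    refine (norm_sum_le _ _).trans (le_of_eq ?_)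
    exact Finset.sum_congr rfl fun s _ => by rw [one_mul]
  have h2 : (∑ s ∈ F, ‖A s‖) ^ 2 ≤ F.card * ∑ s ∈ F, ‖A s‖ ^ 2 := sq_sum_le_card_mul_sum_sq
  have h3 : ‖M F A 1‖ ^ 2 ≤ ((F.card : ℝ)⁻¹ * ∑ s ∈ F, ‖A s‖) ^ 2 :=
    pow_le_pow_left₀ (norm_nonneg _) h1 2
  refine h3.trans ?_
  rw [mul_pow]
  calc ((F.card : ℝ)⁻¹) ^ 2 * (∑ s ∈ F, ‖A s‖) ^ 2
      ≤ ((F.card : ℝ)⁻¹) ^ 2 * (F.card * ∑ s ∈ F, ‖A s‖ ^ 2) :=
        mul_le_mul_of_nonneg_left h2 (by positivity)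
    _ = (F.card : ℝ)⁻¹ * ∑ s ∈ F, ‖A s‖ ^ 2 := by
        field_simp

theorem isJ_low {F : Finset Γ} (hF : F.Nonempty) {φ : Γ → ℝ} {A : Γ → E} {C : Γ → E'}
    (h : IsJ φ A C) {c : ℝ} (hc : ∀ x, ‖C x‖ ≤ c) : - (2 * c ^ 2) ≤ φ 1 - T F φ 1 := by
  have hN : (0 : ℝ) < F.card := by exact_mod_cast hF.card_pos
  have hphi : ∀ s : Γ, φ 1 = ‖A s‖ ^ 2 - ‖C s‖ ^ 2 := by
    intro s
    have := h s s
    rw [inv_mul_cancel, real_inner_self_eq_norm_sq, real_inner_self_eq_norm_sq] at this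
    exact this
  have h1 : φ 1 = (F.card : ℝ)⁻¹ * ∑ s ∈ F, ‖A s‖ ^ 2 - (F.card : ℝ)⁻¹ * ∑ s ∈ F, ‖C s‖ ^ 2 := by
    rw [← mul_sub, ← Finset.sum_sub_distrib, Finset.sum_congr rfl fun s _ => (hphi s).symm]
    rw [Finset.sum_const, nsmul_eq_mul]
    field_simp
  have h2 : T F φ 1 = ‖M F A 1‖ ^ 2 - ‖M F C 1‖ ^ 2 := by
    have := isJ_T F h 1 1
    rw [inv_mul_cancel, real_inner_self_eq_norm_sq, real_inner_self_eq_norm_sq] at this
    exact this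
  have h3 := kz10_jensen hF A
  have h4 : (F.card : ℝ)⁻¹ * ∑ s ∈ F, ‖C s‖ ^ 2 ≤ c ^ 2 := by
    have : ∑ s ∈ F, ‖C s‖ ^ 2 ≤ F.card * c ^ 2 := by
      refine (Finset.sum_le_sum fun s _ => pow_le_pow_left₀ (norm_nonneg _) (hc s) 2).trans ?_
      rw [Finset.sum_const, nsmul_eq_mul]
    rw [inv_mul_le_iff₀ hN]
    exact this
  have h5 : 0 ≤ ‖M F C 1‖ ^ 2 := by positivity
  have h6 : 0 ≤ c ^ 2 := by positivity
  linarith

end Pool.Agent.KZ
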