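import Pool.Agent.KZ.Defs

set_option autoImplicit false

/-!
# Project KZ, row KZ-17: from Herz-Schur multipliers to differences of positive kernels
-/

namespace Pool.Agent.KZ

universe u

private theorem kz17_polar {H : Type u} [NormedAddCommGroup H] [InnerProductSpace ℂ H]
    (p q p' q' : H) :
    (inner ℂ ((1 / 2 : ℂ) • (p + q)) ((1 / 2 : ℂ) • (p' + q'))).re -
      (inner ℂ ((1 / 2 : ℂ) • (p - q)) ((1 / 2 : ℂ) • (p' - q'))).re =
      ((inner ℂ q' p).re + (inner ℂ q p').re) / 2 := by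
  have h1 : (inner ℂ p q').re = (inner ℂ q' p).re := by
    rw [← inner_conj_symm, Complex.conj_re]
  have h2 : (starRingEnd ℂ) (1 / 2 : ℂ) = 1 / 2 := by
    have := Complex.conj_ofReal (1 / 2)
    push_cast at this
    exact this
  rw [← h1]
  have key : inner ℂ ((1 / 2 : ℂ) • (p + q)) ((1 / 2 : ℂ) • (p' + q')) -
      inner ℂ ((1 / 2 : ℂ) • (p - q)) ((1 / 2 : ℂ) • (p' - q')) =
      ((1 / 2 : ℝ) : ℂ) * (inner ℂ p q' + inner ℂ q p') := by
    simp only [inner_smul_left, inner_smul_right, inner_add_left, inner_add_right,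
      inner_sub_left, inner_sub_right, h2]
    push_cast
    ring
  have key2 := congrArg Complex.re key
  rw [Complex.sub_re, Complex.re_ofReal_mul, Complex.add_re] at key2
  rw [key2]
  ring

theorem herz_isJ {Γ : Type u} [Group Γ] {φ : Γ → ℂ} {H : Type u} [NormedAddCommGroup H]
    [InnerProductSpace ℂ H] (P Q : Γ → H) {a b C : ℝ} (ha : ∀ x, ‖P x‖ ≤ a) (hb : ∀ x, ‖Q x‖ ≤ b)
    (hab : a * b ≤ C) (hφ : ∀ x y, φ (y⁻¹ * x) = inner ℂ (Q y) (P x)) (h1 : 0 < (φ 1).re) :
    ∃ (E : Type u) (_ : NormedAddCommGroup E) (_ : InnerProductSpace ℝ E) (A D : Γ → E),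
      IsJ (fun g => ((φ g).re + (φ g⁻¹).re) / 2) A D ∧
        ∀ x, ‖D x‖ ≤ Real.sqrt ((C - (φ 1).re) / 2) := by
  have e1 : φ 1 = inner ℂ (Q 1) (P 1) := by
    have := hφ 1 1
    rwa [inv_mul_cancel] at this
  have hpos : 0 < ‖Q 1‖ * ‖P 1‖ := by
    refine h1.trans_le ?_
    rw [e1]
    exact (Complex.re_le_norm _).trans (norm_inner_le_norm _ _)
  have hP0 : 0 < ‖P 1‖ := by
    rcases (norm_nonneg (P 1)).eq_or_lt with h | h
    · rw [← h, mul_zero] at hpos
      exact absurd hpos (lt_irrefl _)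
    · exact h
  have hQ0 : 0 < ‖Q 1‖ := by
    rcases (norm_nonneg (Q 1)).eq_or_lt with h | h
    · rw [← h, zero_mul] at hpos
      exact absurd hpos (lt_irrefl _)
    · exact h
  have ha0 : 0 < a := hP0.trans_le (ha 1)
  have hb0 : 0 < b := hQ0.trans_le (hb 1)
  set s : ℝ := Real.sqrt (b / a) with hs
  set r : ℝ := Real.sqrt (a / b) with hr
  have hs2 : s ^ 2 = b / a := Real.sq_sqrt (by positivity)
  have hr2 : r ^ 2 = a / b := Real.sq_sqrt (by positivity)
  have hs0 : 0 ≤ s := Real.sqrt_nonneg _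
  have hr0 : 0 ≤ r := Real.sqrt_nonneg _
  have hrs : r * s = 1 := by
    rw [hr, hs, ← Real.sqrt_mul (by positivity)]
    rw [show a / b * (b / a) = 1 by field_simp, Real.sqrt_one]
  set P' : Γ → H := fun x => (s : ℂ) • P x with hP'
  set Q' : Γ → H := fun x => (r : ℂ) • Q x with hQ'
  have hin : ∀ x y, inner ℂ (Q' y) (P' x) = φ (y⁻¹ * x) := by
    intro x y
    rw [hφ, hQ', hP']
    simp only
    rw [inner_smul_left, inner_smul_right, Complex.conj_ofReal, ← mul_assoc,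
      ← Complex.ofReal_mul, hrs, Complex.ofReal_one, one_mul]
  let inst : InnerProductSpace ℝ H := InnerProductSpace.rclikeToReal ℂ H
  have hre : ∀ u v : H, inner ℝ u v = (inner ℂ u v).re := fun u v => rfl
  refine ⟨H, inferInstance, inst, fun x => (1 / 2 : ℂ) • (P' x + Q' x),
    fun x => (1 / 2 : ℂ) • (P' x - Q' x), ?_, ?_⟩
  · intro x y
    simp only
    rw [hre, hre, kz17_polar, hin]
    have e2 : inner ℂ (Q' x) (P' y) = φ (x⁻¹ * y) := hin y x
    rw [e2, mul_inv_rev, inv_inv]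
  · intro x
    refine Real.le_sqrt_of_sq_le ?_
    have e3 : ‖(1 / 2 : ℂ) • (P' x - Q' x)‖ ^ 2 = ‖P' x - Q' x‖ ^ 2 / 4 := by
      rw [norm_smul, mul_pow]
      norm_num
      ring
    have e4 : ‖P' x - Q' x‖ ^ 2 = ‖P' x‖ ^ 2 - 2 * (φ 1).re + ‖Q' x‖ ^ 2 := by
      rw [@norm_sub_sq ℂ]
      have e5 : (inner ℂ (P' x) (Q' x)).re = (φ 1).re := by
        rw [← inner_conj_symm, Complex.conj_re, hin, inv_mul_cancel]
      have e6 : RCLike.re (inner ℂ (P' x) (Q' x)) = (φ 1).re := e5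
      rw [e6]
    have e7 : ‖P' x‖ ^ 2 ≤ a * b := by
      rw [hP']
      simp only
      rw [norm_smul, Complex.norm_real, Real.norm_of_nonneg hs0, mul_pow, hs2]
      calc b / a * ‖P x‖ ^ 2 ≤ b / a * a ^ 2 :=
            mul_le_mul_of_nonneg_left (pow_le_pow_left₀ (norm_nonneg _) (ha x) 2) (by positivity)
        _ = a * b := by field_simp
    have e8 : ‖Q' x‖ ^ 2 ≤ a * b := by
      rw [hQ']
      simp only
      rw [norm_smul, Complex.norm_real, Real.norm_of_nonneg hr0, mul_pow, hr2]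
      calc a / b * ‖Q x‖ ^ 2 ≤ a / b * b ^ 2 :=
            mul_le_mul_of_nonneg_left (pow_le_pow_left₀ (norm_nonneg _) (hb x) 2) (by positivity)
        _ = a * b := by field_simp
    rw [e3, e4]
    linarith

end Pool.Agent.KZ
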