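import Pool.Agent.KZ.Basic
import Pool.Agent.KZ.Reach
import Pool.Agent.KZ.Harm

set_option autoImplicit false

/-!
# Spread: a random walk which returns to a compact set forces a relatively compact image
-/

namespace Pool.Agent.KZ

open Filter Topology Pointwise

section
variable {Γ : Type*} [Group Γ]

/-- A function fixed by the two-step average is fixed by all even averages. -/
theorem harm_iter {F : Finset Γ} {h : Γ → ℝ} (hh : ∀ x, (M F)^[2] h x = h x) (r : ℕ) :
    (M F)^[2 * r] h = h := by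
  rw [Function.iterate_mul]
  exact Function.iterate_fixed (funext hh) r

/-- The disjointness criterion. -/
theorem disj_of_not_mem {G : Type*} [Group G] (ρ : Γ →* G) {S : Set G} {x y : Γ}
    (hxy : (ρ y)⁻¹ ∉ (fun g => (ρ x)⁻¹ * g) '' (S * S⁻¹)) (z : Γ) :
    ¬ (ρ (x * z) ∈ S ∧ ρ (y * z) ∈ S) := by
  rintro ⟨h1, h2⟩
  refine hxy ⟨ρ (x * z) * (ρ (y * z))⁻¹, Set.mul_mem_mul h1 (Set.inv_mem_inv.mpr h2), ?_⟩
  simp only [map_mul]
  group

/-- Points where the harmonic function is large are mapped into a compact set. -/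
theorem exists_compact_of_large {F : Finset Γ} (hF : F.Nonempty) {G : Type*} [Group G]
    [TopologicalSpace G] [IsTopologicalGroup G] (ρ : Γ →* G) {S : Set G} (hS : IsCompact S)
    (hne : S.Nonempty) {h : Γ → ℝ}
    (hlim : ∀ x, Tendsto (fun n : ℕ => ((n : ℝ) + 1)⁻¹ * ∑ k ∈ Finset.range (n + 1),
        (M F)^[2 * k] (fun z => Set.indicator S (fun _ => (1 : ℝ)) (ρ z)) x)
        (hyperfilter ℕ : Filter ℕ) (𝓝 (h x)))
    {d : ℝ} (hd : 0 < d) :
    ∃ D : Set G, IsCompact D ∧ ∀ x, d ≤ h x → (ρ x)⁻¹ ∈ D := by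
  classical
  by_contra hcon
  push Not at hcon
  -- the sum of the values of `h` over a disjoint family is at most one
  have hsum : ∀ X : Finset Γ,
      (∀ x ∈ X, ∀ y ∈ X, x ≠ y → ∀ z : Γ, ¬ (ρ (x * z) ∈ S ∧ ρ (y * z) ∈ S)) →
      ∑ x ∈ X, h x ≤ 1 := by
    intro X hX
    have h1 := tendsto_finsetSum X (fun x _ => hlim x)
    refine le_of_tendsto h1 (Eventually.of_forall fun n => ?_)
    rw [← Finset.mul_sum, Finset.sum_comm]
    have h2 : ∑ k ∈ Finset.range (n + 1), ∑ x ∈ X,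
        (M F)^[2 * k] (fun z => Set.indicator S (fun _ => (1 : ℝ)) (ρ z)) x ≤ (n : ℝ) + 1 := by
      calc _ ≤ ∑ k ∈ Finset.range (n + 1), (1 : ℝ) :=
            Finset.sum_le_sum fun k _ => sum_indicator_le hF ρ S X hX (2 * k)
        _ = (n : ℝ) + 1 := by simp
    have h3 : (0 : ℝ) < (n : ℝ) + 1 := by positivity
    rw [inv_mul_le_iff₀ h3]
    linarith
  have hX : ∀ n : ℕ, ∃ X : Finset Γ, X.card = n ∧ (∀ x ∈ X, d ≤ h x) ∧
      ∀ x ∈ X, ∀ y ∈ X, x ≠ y → ∀ z : Γ, ¬ (ρ (x * z) ∈ S ∧ ρ (y * z) ∈ S) := by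
    intro n
    induction n with
    | zero => exact ⟨∅, rfl, by simp, by simp⟩
    | succ n ih =>
      obtain ⟨X, hc, hdX, hpX⟩ := ih
      have hSS : IsCompact (S * S⁻¹) := hS.mul hS.inv
      have hD : IsCompact (⋃ x ∈ X, (fun g => (ρ x)⁻¹ * g) '' (S * S⁻¹)) :=
        X.isCompact_biUnion fun x _ => hSS.image (continuous_const_mul _)
      obtain ⟨y, hy, hyD⟩ := hcon _ hD
      have hyD' : ∀ x ∈ X, (ρ y)⁻¹ ∉ (fun g => (ρ x)⁻¹ * g) '' (S * S⁻¹) := by
        intro x hx hmem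
        exact hyD (Set.mem_biUnion hx hmem)
      have hyX : y ∉ X := by
        intro hyX
        obtain ⟨s, hs⟩ := hne
        refine hyD' y hyX ⟨1, ?_, by simp⟩
        exact ⟨s, hs, s⁻¹, Set.inv_mem_inv.mpr hs, by simp⟩
      refine ⟨insert y X, by rw [Finset.card_insert_of_notMem hyX, hc], ?_, ?_⟩
      · intro x hx
        rcases Finset.mem_insert.mp hx with rfl | hx
        · exact hy
        · exact hdX x hx
      · intro a ha b hb hab z
        rcases Finset.mem_insert.mp ha with ha1 | ha1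
        · rcases Finset.mem_insert.mp hb with hb1 | hb1
          · exact absurd (ha1.trans hb1.symm) hab
          · intro h1
            exact disj_of_not_mem ρ (hyD' b hb1) z ⟨h1.2, ha1 ▸ h1.1⟩
        · rcases Finset.mem_insert.mp hb with hb1 | hb1
          · rw [hb1]
            exact disj_of_not_mem ρ (hyD' a ha1) z
          · exact hpX a ha1 b hb1 hab z
  obtain ⟨n, hn⟩ := exists_nat_gt (1 / d)
  obtain ⟨X, hc, hdX, hpX⟩ := hX n
  have h1 := hsum X hpX
  have h2 : (n : ℝ) * d ≤ ∑ x ∈ X, h x := by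
    calc (n : ℝ) * d = ∑ x ∈ X, d := by rw [Finset.sum_const, hc, nsmul_eq_mul]
      _ ≤ _ := Finset.sum_le_sum hdX
  rw [div_lt_iff₀ hd] at hn
  linarith

theorem spread_set {F : Finset Γ} (hF : Good F) {G : Type*} [Group G] [TopologicalSpace G]
    [IsTopologicalGroup G] [T2Space G] (ρ : Γ →* G) {S : Set G} (hS : IsCompact S) {c : ℝ}
    (hc : 0 < c)
    (hlow : ∀ n : ℕ, c ≤ (M F)^[2 * n] (fun z => Set.indicator S (fun _ => (1 : ℝ)) (ρ z)) 1) :
    IsCompact (closure (Set.range ρ)) := by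
  have hFn : F.Nonempty := ⟨1, hF.one⟩
  have hne : S.Nonempty := by
    have h0 := hlow 0
    simp only [Nat.mul_zero, Function.iterate_zero, id_eq] at h0
    by_contra hS0
    rw [Set.not_nonempty_iff_eq_empty] at hS0
    rw [hS0] at h0
    simp at h0
    linarith
  obtain ⟨h, hh0, hh1, hharm, hlim⟩ := exists_harmonic hFn
    (fun z => Set.indicator S (fun _ => (1 : ℝ)) (ρ z))
    (fun x => Set.indicator_nonneg (fun _ _ => zero_le_one) _)
    (fun x => Set.indicator_le_self' (fun _ _ => zero_le_one) _)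
  have hc1 : c ≤ h 1 := by
    refine ge_of_tendsto (hlim 1) (Eventually.of_forall fun n => ?_)
    have h3 : (0 : ℝ) < (n : ℝ) + 1 := by positivity
    rw [le_inv_mul_iff₀ h3]
    calc ((n : ℝ) + 1) * c = ∑ k ∈ Finset.range (n + 1), c := by
          rw [Finset.sum_const, Finset.card_range, nsmul_eq_mul]
          push_cast
          ring
      _ ≤ _ := Finset.sum_le_sum fun k _ => hlow k
  obtain ⟨D, hD, hDx⟩ := exists_compact_of_large hFn ρ hS hne hlim (half_pos hc)
  have hbdd : BddAbove (Set.range h) := ⟨1, by rintro _ ⟨x, rfl⟩; exact hh1 x⟩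
  set s0 : ℝ := ⨆ x, h x with hs0
  have hle : ∀ x, h x ≤ s0 := fun x => le_ciSup hbdd x
  have hcs : c ≤ s0 := hc1.trans (hle 1)
  have hs0pos : 0 < s0 := hc.trans_le hcs
  -- the key inclusion
  have hkey : ∀ g : Γ, (ρ g)⁻¹ ∈ D * D⁻¹ := by
    intro g
    obtain ⟨r₀, hr₀⟩ := reach_of_good hF g
    obtain ⟨c0, hc0, hR⟩ := hr₀ (2 * r₀) (by omega)
    have hu : ∀ x, c0 * (s0 - h (x * g)) ≤ s0 - h x := by
      intro x
      have h1 := hR (fun y => s0 - h y) (fun y => sub_nonneg.mpr (hle y)) x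
      rw [M_iter_sub, M_iter_const hFn, harm_iter hharm] at h1
      exact h1
    have hm : 0 < min (c0 * s0 / 2) (s0 / 2) := lt_min (by positivity) (by positivity)
    obtain ⟨x, hx⟩ := exists_lt_of_lt_ciSup (show s0 - min (c0 * s0 / 2) (s0 / 2) < ⨆ x, h x by
      rw [← hs0]; linarith)
    have hm1 : min (c0 * s0 / 2) (s0 / 2) ≤ c0 * s0 / 2 := min_le_left _ _
    have hm2 : min (c0 * s0 / 2) (s0 / 2) ≤ s0 / 2 := min_le_right _ _
    have hx1 : c / 2 ≤ h x := by linarith
    have hx2 : c / 2 ≤ h (x * g) := by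
      have h1 := hu x
      have h2 : c0 * (s0 - h (x * g)) ≤ c0 * (s0 / 2) := by linarith
      have h3 := le_of_mul_le_mul_left h2 hc0
      linarith
    refine ⟨(ρ (x * g))⁻¹, hDx _ hx2, ρ x, ?_, ?_⟩
    · rw [Set.mem_inv]
      exact hDx _ hx1
    · simp only [map_mul]
      group
  have hsub : Set.range ρ ⊆ D * D⁻¹ := by
    rintro _ ⟨g, rfl⟩
    have h1 := hkey g⁻¹
    rwa [map_inv, inv_inv] at h1
  have hDD : IsCompact (D * D⁻¹) := hD.mul hD.inv
  exact hDD.of_isClosed_subset isClosed_closure (closure_minimal hsub hDD.isClosed)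

theorem spread {F : Finset Γ} (hF : Good F) {G : Type*} [Group G] [TopologicalSpace G]
    [IsTopologicalGroup G] [T2Space G] (ρ : Γ →* G) {f : G → ℝ}
    (hf : Tendsto f (cocompact G) (𝓝 0)) {b : ℝ} (hb : ∀ x, |f x| ≤ b) {c : ℝ} (hc : 0 < c)
    (hlow : ∀ n : ℕ, c ≤ (M F)^[2 * n] (fun z => f (ρ z)) 1) :
    IsCompact (closure (Set.range ρ)) := by
  have hFn : F.Nonempty := ⟨1, hF.one⟩
  have h1 : {x | |f x| < c / 2} ∈ cocompact G := by
    have h2 := hf.abs
    rw [abs_zero] at h2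
    exact h2.eventually_lt_const (half_pos hc)
  obtain ⟨S, hS, hSc⟩ := mem_cocompact.mp h1
  have hb0 : 0 ≤ b := (abs_nonneg _).trans (hb 1)
  refine spread_set hF ρ hS (c := c / (2 * (b + 1))) (by positivity) fun n => ?_
  have h3 : ∀ z : Γ, f (ρ z) ≤ c / 2 +
      (LinearMap.mulLeft ℝ b) (Set.indicator S (fun _ => (1 : ℝ)) (ρ z)) := by
    intro z
    rw [LinearMap.mulLeft_apply]
    by_cases hz : ρ z ∈ S
    · rw [Set.indicator_of_mem hz]
      have := (le_abs_self _).trans (hb (ρ z))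
      linarith
    · rw [Set.indicator_of_notMem hz]
      have h4 : |f (ρ z)| < c / 2 := hSc hz
      have := le_abs_self (f (ρ z))
      linarith
  have h4 := M_iter_mono (F := F) (2 * n) h3 1
  rw [M_iter_add, M_iter_const hFn, M_iter_map] at h4
  have h5 := (hlow n).trans h4
  beta_reduce at h5
  rw [LinearMap.mulLeft_apply] at h5
  have h6 : 0 ≤ (M F)^[2 * n] (fun z => Set.indicator S (fun _ => (1 : ℝ)) (ρ z)) 1 := by
    have h7 := M_iter_mono (F := F) (f := fun _ => (0 : ℝ))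
      (g := fun z => Set.indicator S (fun _ => (1 : ℝ)) (ρ z)) (2 * n)
      (fun x => Set.indicator_nonneg (fun _ _ => zero_le_one) _) 1
    rwa [M_iter_const hFn] at h7
  rw [div_le_iff₀ (by positivity)]
  nlinarith

end

end Pool.Agent.KZ
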