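import Pool.Agent.KZ.Basic

set_option autoImplicit false

/-!
# The two-sided average at the unit is the two-step walk (KZ-14)
-/

namespace Pool.Agent.KZ

section Walk

variable {Γ : Type*} [Group Γ]

theorem walk_iter_smul (F : Finset Γ) (n : ℕ) (c : ℝ) (f : Γ → ℝ) :
    (M F)^[n] (fun x => c * f x) = fun x => c * (M F)^[n] f x :=
  M_iter_map F n (LinearMap.mulLeft ℝ c) f

theorem walk_iter_zero (F : Finset Γ) (n : ℕ) :
    (M F)^[n] (fun _ => (0 : ℝ)) = fun _ => (0 : ℝ) := by
  have h := walk_iter_smul F n 0 (fun _ => (0 : ℝ))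
  simpa using h

theorem walk_iter_sum {ι : Type*} (F : Finset Γ) (n : ℕ) (S : Finset ι) (f : ι → Γ → ℝ) :
    (M F)^[n] (fun x => ∑ s ∈ S, f s x) = fun x => ∑ s ∈ S, (M F)^[n] (f s) x := by
  classical
  induction S using Finset.induction_on with
  | empty => simpa using walk_iter_zero F n
  | insert a S ha ih =>
    simp only [Finset.sum_insert ha]
    rw [M_iter_add, ih]

/-- the sum over a symmetric set does not change under inversion -/
theorem walk_sum_inv {F : Finset Γ} (hF : ∀ s ∈ F, s⁻¹ ∈ F) (f : Γ → ℝ) :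
    ∑ s ∈ F, f s⁻¹ = ∑ s ∈ F, f s := by
  apply Finset.sum_nbij' (fun s => s⁻¹) (fun s => s⁻¹)
  · exact fun s hs => hF s hs
  · exact fun s hs => hF s hs
  · exact fun s _ => inv_inv s
  · exact fun s _ => inv_inv s
  · exact fun s _ => rfl

/-- the two-sided average at the unit is the two-step walk -/
theorem T_iter_one {F : Finset Γ} (hF : Good F) (n : ℕ) (φ : Γ → ℝ) :
    (T F)^[n] φ 1 = (M F)^[2 * n] φ 1 := by
  induction n generalizing φ with
  | zero => rfl
  | succ n ih =>
    rw [Function.iterate_succ_apply, ih]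
    have h1 : T F φ = fun g => (F.card : ℝ)⁻¹ * ∑ s ∈ F, M F φ (s⁻¹ * g) := by
      funext g
      simp only [T, M, smul_eq_mul, ← Finset.mul_sum]
    rw [h1, walk_iter_smul, walk_iter_sum]
    have h2 : ∀ s : Γ, (M F)^[2 * n] (fun g => M F φ (s⁻¹ * g)) 1 =
        (M F)^[2 * n + 1] φ s⁻¹ := by
      intro s
      rw [M_iter_left, mul_one, Function.iterate_succ_apply]
    simp only [h2]
    rw [walk_sum_inv hF.inv (fun s => (M F)^[2 * n + 1] φ s)]
    have h3 : 2 * (n + 1) = (2 * n + 1) + 1 := by ring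
    have h4 : (M F)^[(2 * n + 1) + 1] φ 1 = M F ((M F)^[2 * n + 1] φ) 1 := by
      rw [Function.iterate_succ_apply' (M F) (2 * n + 1) φ]
    rw [h3, h4]
    generalize (M F)^[2 * n + 1] φ = ψ
    simp only [M, smul_eq_mul, one_mul]

end Walk

end Pool.Agent.KZ
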