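import Pool.Agent.KZ.Ineq
import Pool.Agent.KZ.Walk
import Pool.Agent.KZ.Spread
import Pool.Agent.KZ.Mult
import Pool.Agent.KZ.GapCert

set_option autoImplicit false

namespace Pool.Agent.KZ

universe u

open Filter Topology


/-- the symmetrised real part -/
noncomputable def sre {G : Type*} [Group G] (φ : G → ℂ) (g : G) : ℝ :=
  ((φ g).re + (φ g⁻¹).re) / 2

theorem sre_one {G : Type*} [Group G] (φ : G → ℂ) : sre φ 1 = (φ 1).re := by
  unfold sre
  rw [inv_one]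
  ring

/-- the spectral gap inequality for Herz-Schur multipliers of a discrete property (T) group -/
theorem herz_ineq {Γ : Type u} [Group Γ] [Nontrivial Γ] (hT : PropertyT Γ) :
    ∃ (F : Finset Γ) (κ K : ℝ), Good F ∧ 0 < κ ∧ 0 ≤ K ∧
      ∀ (φ : Γ → ℂ) (H : Type u) [NormedAddCommGroup H] [InnerProductSpace ℂ H]
        (P Q : Γ → H) (a b C : ℝ), (∀ x, ‖P x‖ ≤ a) → (∀ x, ‖Q x‖ ≤ b) → a * b ≤ C →
        (∀ x y, φ (y⁻¹ * x) = inner ℂ (Q y) (P x)) → 0 < (φ 1).re →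
        ∀ n : ℕ, κ * (sre φ 1 - (T F)^[n] (sre φ) 1) ≤
          (sre φ 1 - T F (sre φ) 1) + K * (C - sre φ 1) := by
  obtain ⟨F, κ, hF, hκ, hc⟩ := exists_cert hT
  obtain ⟨K, hK, h⟩ := main_ineq.{u} hF hc
  refine ⟨F, κ, K, hF, hκ, hK, ?_⟩
  intro φ H _ _ P Q a b C ha hb hab hφ h1 n
  obtain ⟨E, i1, i2, A, D, hJ, hD⟩ := herz_isJ P Q ha hb hab hφ h1
  have h2 := h E (sre φ) A D _ hJ hD n
  have hpos : 0 ≤ (C - (φ 1).re) / 2 := by
    have h3 : (φ 1).re ≤ ‖φ 1‖ := Complex.re_le_norm _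
    have h4 : φ 1 = inner ℂ (Q 1) (P 1) := by
      have := hφ 1 1
      rwa [inv_one, one_mul] at this
    have h5 : ‖φ 1‖ ≤ ‖Q 1‖ * ‖P 1‖ := by
      rw [h4]
      exact norm_inner_le_norm _ _
    have h6 : ‖Q 1‖ * ‖P 1‖ ≤ b * a :=
      mul_le_mul (hb 1) (ha 1) (norm_nonneg _) ((norm_nonneg _).trans (hb 1))
    linarith [mul_comm a b]
  rw [Real.sq_sqrt hpos] at h2
  have h7 : K * ((C - (φ 1).re) / 2) ≤ K * (C - (φ 1).re) :=
    mul_le_mul_of_nonneg_left (by linarith) hK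
  rw [sre_one] at h2 ⊢
  linarith

theorem herzSchurLE_of_norm {G : Type u} [Group G] [TopologicalSpace G] {φ : G → ℂ} {C D : ℝ}
    (h : IsHerzSchur φ) (hC : B2Norm φ ≤ C) (hCD : C < D) : HerzSchurLE φ D := by
  obtain ⟨-, C0, hC0⟩ := h
  have hlt : sInf {C : ℝ | HerzSchurLE φ C} < D := lt_of_le_of_lt hC hCD
  obtain ⟨C1, hC1, hlt1⟩ := exists_lt_of_csInf_lt ⟨C0, hC0⟩ hlt
  obtain ⟨H, i1, i2, i3, P, Q, a, b, hP, hQ, ha, hb, hab, hφ⟩ := hC1
  exact ⟨H, i1, i2, i3, P, Q, a, b, hP, hQ, ha, hb, hab.trans hlt1.le, hφ⟩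

/-- the core: for a discrete property (T) group there is `ε > 0` such that functions on `G` which
are `ε`-close to one on compact sets, vanish at infinity and have factorisations of size
`1 + 2ε`, force relatively compact images -/
theorem image_core {Γ : Type u} [Group Γ] (hT : PropertyT Γ) :
    ∃ ε : ℝ, 0 < ε ∧ ∀ (G : Type u) [Group G] [TopologicalSpace G] [IsTopologicalGroup G]
      [T2Space G],
      (∀ K : Set G, IsCompact K → ∃ φ : G → ℂ,
        Tendsto φ (cocompact G) (𝓝 0) ∧ HerzSchurLE φ (1 + 2 * ε) ∧ ∀ x ∈ K, ‖φ x - 1‖ < ε) →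
      ∀ ρ : Γ →* G, IsCompact (closure (Set.range ρ)) := by
  rcases subsingleton_or_nontrivial Γ with hs | hn
  · refine ⟨1, one_pos, fun G _ _ _ _ _ ρ => ?_⟩
    have hr : (Set.range ρ).Finite := Set.finite_range ρ
    rw [hr.isClosed.closure_eq]
    exact hr.isCompact
  obtain ⟨F, κ, K, hF, hκ, hK, hineq⟩ := herz_ineq hT
  obtain ⟨ε, hε0, hε1, hε2⟩ : ∃ ε : ℝ, 0 < ε ∧ ε ≤ 1 / 4 ∧ ε * (2 + 3 * K) ≤ κ / 4 := by
    refine ⟨min (1 / 4) (κ / (4 * (2 + 3 * K))), ?_, min_le_left _ _, ?_⟩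
    · exact lt_min (by norm_num) (by positivity)
    · have h1 : min (1 / 4) (κ / (4 * (2 + 3 * K))) ≤ κ / (4 * (2 + 3 * K)) := min_le_right _ _
      have h2 : 0 < 2 + 3 * K := by linarith
      calc min (1 / 4) (κ / (4 * (2 + 3 * K))) * (2 + 3 * K)
          ≤ κ / (4 * (2 + 3 * K)) * (2 + 3 * K) := mul_le_mul_of_nonneg_right h1 h2.le
        _ = κ / 4 := by field_simp
  refine ⟨ε, hε0, ?_⟩
  intro G _ _ _ _ hG ρ
  have hfin : (Set.range fun p : F × F => ρ ((p.1 : Γ)⁻¹ * (p.2 : Γ))).Finite :=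
    Set.finite_range _
  obtain ⟨φ, hφ0, hφC, hφ1⟩ := hG _ hfin.isCompact
  obtain ⟨H, i1, i2, i3, P, Q, a, b, -, -, ha, hb, hab, hφ⟩ := hφC
  have hnear : ∀ s ∈ F, ∀ t ∈ F, |(φ (ρ (s⁻¹ * t))).re - 1| < ε := by
    intro s hs t ht
    have h1 := hφ1 _ ⟨(⟨s, hs⟩, ⟨t, ht⟩), rfl⟩
    have h2 : |(φ (ρ (s⁻¹ * t)) - 1).re| ≤ ‖φ (ρ (s⁻¹ * t)) - 1‖ := Complex.abs_re_le_norm _
    rw [Complex.sub_re, Complex.one_re] at h2
    exact lt_of_le_of_lt h2 h1
  obtain ⟨f, hf⟩ : ∃ f : Γ → ℝ, f = sre (fun g => φ (ρ g)) := ⟨_, rfl⟩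
  have hst : ∀ s ∈ F, ∀ t ∈ F, |f (s⁻¹ * t) - 1| < ε := by
    intro s hs t ht
    have h1 := hnear s hs t ht
    have h2 := hnear t ht s hs
    rw [hf]
    unfold sre
    simp only [mul_inv_rev, inv_inv]
    rw [abs_lt] at h1 h2 ⊢
    constructor <;> linarith [h1.1, h1.2, h2.1, h2.2]
  have hone : |f 1 - 1| < ε := by
    have := hst 1 hF.one 1 hF.one
    rwa [inv_one, one_mul] at this
  have hone' := abs_lt.1 hone
  have hre : (φ (ρ 1)).re = f 1 := by rw [hf, sre_one]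
  have hTf : 1 - ε ≤ T F f 1 := by
    rw [T_one]
    have hcard : (0 : ℝ) < F.card := by
      exact_mod_cast Finset.card_pos.2 ⟨1, hF.one⟩
    have h1 : (F.card : ℝ) * (F.card * (1 - ε)) ≤ ∑ s ∈ F, ∑ t ∈ F, f (s⁻¹ * t) := by
      rw [← nsmul_eq_mul, ← nsmul_eq_mul, ← Finset.sum_const, ← Finset.sum_const]
      refine Finset.sum_le_sum fun s hs => Finset.sum_le_sum fun t ht => ?_
      have := abs_lt.1 (hst s hs t ht)
      linarith [this.1]
    have h2 : (1 - ε) = (F.card : ℝ)⁻¹ * ((F.card : ℝ)⁻¹ * ((F.card : ℝ) * (F.card * (1 - ε)))) := by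
      field_simp
    have hinv : (0 : ℝ) ≤ (F.card : ℝ)⁻¹ := inv_nonneg.2 hcard.le
    have h3 := mul_le_mul_of_nonneg_left (mul_le_mul_of_nonneg_left h1 hinv) hinv
    rwa [← h2] at h3
  have key : ∀ n : ℕ, (1 : ℝ) / 2 ≤ (T F)^[n] f 1 := by
    intro n
    have h1 := hineq (fun g => φ (ρ g)) H (fun x => P (ρ x)) (fun x => Q (ρ x)) a b (1 + 2 * ε)
      (fun x => ha _) (fun x => hb _) hab
      (fun x y => by rw [← hφ, map_mul, map_inv]) (by rw [hre]; linarith [hone'.1]) n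
    rw [← hf] at h1
    have h2 : (f 1 - T F f 1) + K * (1 + 2 * ε - f 1) ≤ ε * (2 + 3 * K) := by
      have h3 : K * (1 + 2 * ε - f 1) ≤ K * (3 * ε) :=
        mul_le_mul_of_nonneg_left (by linarith [hone'.1]) hK
      have h4 : f 1 - T F f 1 ≤ 2 * ε := by linarith [hone'.2]
      calc (f 1 - T F f 1) + K * (1 + 2 * ε - f 1) ≤ 2 * ε + K * (3 * ε) := add_le_add h4 h3
        _ = ε * (2 + 3 * K) := by ring
    have h5 : κ * (f 1 - (T F)^[n] f 1) ≤ κ * (1 / 4) := by linarith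
    have h6 : f 1 - (T F)^[n] f 1 ≤ 1 / 4 := le_of_mul_le_mul_left h5 hκ
    linarith [hone'.1]
  -- the function on G
  have hbd : ∀ x : G, |sre φ x| ≤ b * a := by
    have hφb : ∀ x : G, |(φ x).re| ≤ b * a := by
      intro x
      have h4 : φ x = inner ℂ (Q 1) (P x) := by
        have := hφ x 1
        rwa [inv_one, one_mul] at this
      refine (Complex.abs_re_le_norm _).trans ?_
      rw [h4]
      exact (norm_inner_le_norm _ _).trans
        (mul_le_mul (hb 1) (ha x) (norm_nonneg _) ((norm_nonneg _).trans (hb 1)))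
    intro x
    have h1 := abs_le.1 (hφb x)
    have h2 := abs_le.1 (hφb x⁻¹)
    unfold sre
    rw [abs_le]
    constructor <;> linarith [h1.1, h1.2, h2.1, h2.2]
  have hten : Tendsto (sre φ) (cocompact G) (𝓝 0) := by
    have h1 : Tendsto (fun x => (φ x).re) (cocompact G) (𝓝 0) := by
      have := (Complex.continuous_re.tendsto 0).comp hφ0
      rw [Complex.zero_re] at this
      exact this
    have h2 : Tendsto (fun x : G => (φ x⁻¹).re) (cocompact G) (𝓝 0) :=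
      h1.comp (Homeomorph.inv G).isClosedEmbedding.tendsto_cocompact
    have h3 := (h1.add h2).div_const 2
    rw [add_zero, zero_div] at h3
    exact h3
  refine spread hF ρ hten hbd (c := 1 / 2) (by norm_num) ?_
  intro n
  have h1 := key n
  rw [T_iter_one hF] at h1
  have h2 : f = fun z => sre φ (ρ z) := by
    rw [hf]
    funext z
    unfold sre
    simp only [map_inv]
  rwa [h2] at h1

theorem tendsto_cocompact_of_hasCompactSupport {G : Type u} [TopologicalSpace G] {φ : G → ℂ}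
    (h : HasCompactSupport φ) : Tendsto φ (cocompact G) (𝓝 0) := by
  refine Tendsto.congr' ?_ tendsto_const_nhds
  have h1 : (tsupport φ)ᶜ ∈ cocompact G := h.isCompact.compl_mem_cocompact
  filter_upwards [h1] with x hx
  exact (image_eq_zero_of_notMem_tsupport hx).symm

/-- Cowling-Haagerup constant, or weak Haagerup constant, less than `C` -/
def ConstantLT (G : Type u) [Group G] [TopologicalSpace G] (C : ℝ) : Prop :=
  (WeaklyAmenable G ∧ CowlingHaagerupConstant G < C) ∨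
    (WeakHaagerup G ∧ WeakHaagerupConstant G < C)

theorem approx_of_constant {G : Type u} [Group G] [TopologicalSpace G] {ε : ℝ} (hε : 0 < ε)
    (h : ConstantLT G (1 + ε)) (K : Set G) (hK : IsCompact K) :
    ∃ φ : G → ℂ, Tendsto φ (cocompact G) (𝓝 0) ∧ HerzSchurLE φ (1 + 2 * ε) ∧
      ∀ x ∈ K, ‖φ x - 1‖ < ε := by
  rcases h with ⟨⟨C0, hC0⟩, hlt⟩ | ⟨⟨C0, hC0⟩, hlt⟩
  · obtain ⟨C1, hC1, hlt1⟩ := exists_lt_of_csInf_lt ⟨C0, hC0⟩ hlt
    obtain ⟨φ, h2, h3, h4, h5⟩ := hC1.2 K hK ε hε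
    exact ⟨φ, tendsto_cocompact_of_hasCompactSupport h3,
      herzSchurLE_of_norm h2 h4 (by linarith), h5⟩
  · obtain ⟨C1, hC1, hlt1⟩ := exists_lt_of_csInf_lt ⟨C0, hC0⟩ hlt
    obtain ⟨φ, h2, h3, h4, h5⟩ := hC1.2 K hK ε hε
    exact ⟨φ, h3, herzSchurLE_of_norm h2 h4 (by linarith), h5⟩

/-- the main theorem -/
theorem image_relcompact {Γ : Type u} [Group Γ] (hT : PropertyT Γ) :
    ∃ ε : ℝ, 0 < ε ∧ ∀ (G : Type u) [Group G] [TopologicalSpace G] [IsTopologicalGroup G]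
      [T2Space G], ConstantLT G (1 + ε) →
      ∀ ρ : Γ →* G, IsCompact (closure (Set.range ρ)) := by
  obtain ⟨ε, hε, h⟩ := image_core hT
  exact ⟨ε, hε, fun G _ _ _ _ hG ρ => h G (approx_of_constant hε hG) ρ⟩

theorem finite_of_discrete {G : Type u} [Group G] [TopologicalSpace G] [IsTopologicalGroup G]
    [T2Space G] (H : Subgroup G) [DiscreteTopology H]
    (h : IsCompact (closure (Set.range H.subtype))) : Finite H := by
  have h1 : Set.range H.subtype = (H : Set G) := by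
    ext x
    simp
  have hcl : IsClosed (H : Set G) := Subgroup.isClosed_of_discrete
  rw [h1, hcl.closure_eq] at h
  have h2 : CompactSpace H := isCompact_iff_compactSpace.1 h
  exact finite_of_compact_of_discrete

end Pool.Agent.KZ
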