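import Pool.Agent.KZ.Defs

set_option autoImplicit false

/-! KZ-3: the trace, and the weights of the squared average. -/

namespace Pool.Agent.KZ

section
variable {Γ : Type*} [Group Γ]

theorem kz3_L_single (φ : Γ → ℝ) (g : Γ) (a : ℝ) :
    L φ (Finsupp.single g a) = a * (2 * φ 1 - φ g - φ g⁻¹) := by
  simp [L]

/-- a linear form on the weights of the average -/
theorem kz3_form_wnu (F : Finset Γ) (ℓ : (Γ →₀ ℝ) →ₗ[ℝ] ℝ) :
    ℓ (wnu F) = T F (fun g => ℓ (Finsupp.single g 1)) 1 := by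
  simp only [wnu, T, map_smul, map_sum, mul_one, smul_eq_mul]
  ring

theorem kz3_T_lin {F : Finset Γ} (hF : F.Nonempty) (c : ℝ) (φ ψ : Γ → ℝ) :
    T F (fun g => c - φ g - ψ g) = fun g => c - T F φ g - T F ψ g := by
  funext g
  have hN : (F.card : ℝ) ≠ 0 := by
    exact_mod_cast hF.card_pos.ne'
  simp only [T, Finset.sum_sub_distrib, Finset.sum_const, nsmul_eq_mul]
  field_simp

theorem kz3_T_inv (F : Finset Γ) (φ : Γ → ℝ) :
    T F (fun g => φ g⁻¹) = fun g => T F φ g⁻¹ := by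
  funext g
  simp only [T]
  congr 2
  rw [Finset.sum_comm]
  refine Finset.sum_congr rfl fun t _ => Finset.sum_congr rfl fun s _ => ?_
  congr 1
  group

/-- weights of the squared average -/
theorem L_wnu {F : Finset Γ} (hF : Good F) (φ : Γ → ℝ) :
    L φ (wnu F) = 2 * (φ 1 - T F φ 1) := by
  rw [kz3_form_wnu]
  simp only [kz3_L_single, one_mul]
  rw [kz3_T_lin ⟨1, hF.one⟩, kz3_T_inv]
  simp only [inv_one]
  ring

/-- there are weights `w₂` for `T²` : `L φ w₂ = 2(φ(1) - T²φ(1))`, and any linear form `ℓ` on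
weights gives on `w₂` the number `T²ψ(1)` for `ψ(g) = ℓ(δ_g)`. -/
theorem exists_w2 {F : Finset Γ} (hF : Good F) : ∃ w2 : Γ →₀ ℝ,
    (∀ φ : Γ → ℝ, L φ w2 = 2 * (φ 1 - T F (T F φ) 1)) ∧
    ∀ ℓ : (Γ →₀ ℝ) →ₗ[ℝ] ℝ, ℓ w2 = T F (T F (fun g => ℓ (Finsupp.single g 1))) 1 := by
  have key : ∀ ℓ : (Γ →₀ ℝ) →ₗ[ℝ] ℝ,
      ℓ ((F.card : ℝ)⁻¹ • ((F.card : ℝ)⁻¹ • ∑ s ∈ F, ∑ t ∈ F,
        ((F.card : ℝ)⁻¹ • ((F.card : ℝ)⁻¹ • ∑ s' ∈ F, ∑ t' ∈ F,
          Finsupp.single (s'⁻¹ * (s⁻¹ * 1 * t) * t') (1 : ℝ)))))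
      = T F (T F (fun g => ℓ (Finsupp.single g 1))) 1 := by
    intro ℓ
    simp only [T, map_smul, map_sum, smul_eq_mul]
  refine ⟨_, fun φ => ?_, key⟩
  rw [key]
  simp only [kz3_L_single, one_mul]
  rw [kz3_T_lin ⟨1, hF.one⟩, kz3_T_inv, kz3_T_lin ⟨1, hF.one⟩, kz3_T_inv]
  simp only [inv_one]
  ring

theorem kz3_B_delta [DecidableEq Γ] (ξ : Γ →₀ ℝ) :
    0 ≤ B (fun g : Γ => if g = 1 then (1 : ℝ) else 0) ξ ξ := by
  have h : B (fun g : Γ => if g = 1 then (1 : ℝ) else 0) ξ ξ = ∑ g ∈ ξ.support, ξ g * ξ g := by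
    simp only [B, Finsupp.linearCombination_apply, Finsupp.sum, LinearMap.sum_apply,
      LinearMap.smul_apply, smul_eq_mul]
    refine Finset.sum_congr rfl fun g hg => ?_
    congr 1
    rw [Finset.sum_eq_single g]
    · simp
    · intro b _ hb
      have : ¬ (g⁻¹ * b = 1) := fun e => hb (by rw [inv_mul_eq_one] at e; exact e.symm)
      rw [if_neg this, mul_zero]
    · intro hg'
      exact absurd hg hg'
  rw [h]
  exact Finset.sum_nonneg fun g _ => mul_self_nonneg _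

theorem not_sos_neg_wnu {F : Finset Γ} (hF : 2 ≤ F.card) {c : ℝ} (hc : 0 < c) :
    ¬ SOS ((-c) • wnu F) := by
  classical
  rintro ⟨l, -, hl⟩
  have h := hl (fun g : Γ => if g = 1 then (1 : ℝ) else 0)
  have hnn : 0 ≤ (l.map fun ξ => B (fun g : Γ => if g = 1 then (1 : ℝ) else 0) ξ ξ).sum := by
    apply List.sum_nonneg
    intro x hx
    obtain ⟨ξ, -, rfl⟩ := List.mem_map.1 hx
    exact kz3_B_delta ξ
  have hpos : 0 < L (fun g : Γ => if g = 1 then (1 : ℝ) else 0) (wnu F) := by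
    rw [kz3_form_wnu]
    simp only [kz3_L_single, one_mul, T, if_true]
    have hN : 0 < (F.card : ℝ)⁻¹ := by
      have : (0 : ℝ) < F.card := by exact_mod_cast (by omega : 0 < F.card)
      positivity
    apply mul_pos hN (mul_pos hN _)
    obtain ⟨s, hs, t, ht, hst⟩ := Finset.one_lt_card.1 (by omega : 1 < F.card)
    have hterm : ∀ s t : Γ, (0 : ℝ) ≤ 2 * 1
        - (if s⁻¹ * 1 * t = 1 then (1 : ℝ) else 0)
        - (if (s⁻¹ * 1 * t)⁻¹ = 1 then (1 : ℝ) else 0) := by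
      intro s t
      split_ifs <;> norm_num
    have hst1 : ¬ (s⁻¹ * 1 * t = 1) := by
      rw [mul_one, inv_mul_eq_one]
      exact hst
    have hst2 : ¬ ((s⁻¹ * 1 * t)⁻¹ = 1) := by
      rw [inv_eq_one]
      exact hst1
    refine Finset.sum_pos' (fun s _ => Finset.sum_nonneg fun t _ => hterm s t)
      ⟨s, hs, Finset.sum_pos' (fun t _ => hterm s t) ⟨t, ht, ?_⟩⟩
    rw [if_neg hst1, if_neg hst2]
    norm_num
  rw [map_smul, smul_eq_mul] at h
  rw [← h] at hnn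
  nlinarith

end

end Pool.Agent.KZ
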