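import Pool.Agent.KZ.Defs
import Pool.Agent.KZ.Cone

set_option autoImplicit false

/-!
KZ-2 (MP_e3aa4b_al): the weights of the two-sided average are an order unit of the cone.
-/

namespace Pool.Agent.KZ

section

variable {Γ : Type*} [Group Γ]

theorem unit_mem {F : Finset Γ} (hF : Good F) (g : Γ) (hg : g ∈ F) :
    SOS (((F.card : ℝ) * (F.card : ℝ)) • wnu F - Finsupp.single g (1 : ℝ)) := by
  classical
  have hN : (F.card : ℝ) ≠ 0 := by
    have : F.card ≠ 0 := Finset.card_ne_zero_of_mem hg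
    exact_mod_cast this
  have h1 : ((F.card : ℝ) * (F.card : ℝ)) • wnu F =
      ∑ s ∈ F, ∑ t ∈ F, Finsupp.single (s⁻¹ * t) (1 : ℝ) := by
    rw [wnu, smul_smul]
    have : (F.card : ℝ) * (F.card : ℝ) * ((F.card : ℝ)⁻¹ * (F.card : ℝ)⁻¹) = 1 := by
      field_simp
    rw [this, one_smul]
  have h2 : ∑ s ∈ F, ∑ t ∈ F, Finsupp.single (s⁻¹ * t) (1 : ℝ) - Finsupp.single g (1 : ℝ) =
      ∑ t ∈ F.erase g, Finsupp.single t (1 : ℝ) +
        ∑ s ∈ F.erase 1, ∑ t ∈ F, Finsupp.single (s⁻¹ * t) (1 : ℝ) := by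
    rw [← Finset.add_sum_erase F _ hF.one]
    simp only [inv_one, one_mul]
    rw [← Finset.add_sum_erase F (fun t => Finsupp.single t (1 : ℝ)) hg]
    abel
  rw [h1, h2]
  exact sos_add (sos_sum _ _ fun t _ => sos_single t)
    (sos_sum _ _ fun s _ => sos_sum _ _ fun t _ => sos_single (s⁻¹ * t))

theorem sos_unit_single {F : Finset Γ} (hF : Good F) (g : Γ) :
    ∃ c : ℝ, 0 ≤ c ∧ SOS (c • wnu F - Finsupp.single g (1 : ℝ)) := by
  have hg : g ∈ Subgroup.closure (F : Set Γ) := by rw [hF.gen]; exact Subgroup.mem_top g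
  induction hg using Subgroup.closure_induction with
  | mem x hx =>
    exact ⟨(F.card : ℝ) * (F.card : ℝ), by positivity, unit_mem hF x (Finset.mem_coe.1 hx)⟩
  | one =>
    refine ⟨0, le_refl 0, ?_⟩
    have h : (0 : ℝ) • wnu F - Finsupp.single (1 : Γ) (1 : ℝ) = Finsupp.single 1 (-1) := by
      rw [zero_smul, zero_sub, Finsupp.single_neg]
    rw [h]
    exact sos_single_one (-1)
  | mul x y _ _ hx hy =>
    obtain ⟨c, hc, h⟩ := hx
    obtain ⟨d, hd, h'⟩ := hy
    refine ⟨2 * c + 2 * d, by positivity, ?_⟩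
    have e : (2 * c + 2 * d) • wnu F - Finsupp.single (x * y) (1 : ℝ) =
        ((2 : ℝ) • (c • wnu F - Finsupp.single x (1 : ℝ)) +
          (2 : ℝ) • (d • wnu F - Finsupp.single y (1 : ℝ))) +
        ((2 : ℝ) • Finsupp.single x (1 : ℝ) + (2 : ℝ) • Finsupp.single y (1 : ℝ)
          - Finsupp.single (x * y) (1 : ℝ)) := by
      rw [add_smul, mul_smul, mul_smul, smul_sub, smul_sub]
      abel
    rw [e]
    exact sos_add (sos_add (sos_smul (by norm_num) h) (sos_smul (by norm_num) h')) (sos_mul x y)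
  | inv x _ hx =>
    obtain ⟨c, hc, h⟩ := hx
    refine ⟨c, hc, ?_⟩
    have e : c • wnu F - Finsupp.single x⁻¹ (1 : ℝ) =
        (c • wnu F - Finsupp.single x (1 : ℝ)) +
          (Finsupp.single x (1 : ℝ) - Finsupp.single x⁻¹ (1 : ℝ)) := by
      abel
    rw [e]
    exact sos_add h (sos_inv x 1)

theorem sos_unit {F : Finset Γ} (hF : Good F) (y : Γ →₀ ℝ) :
    ∃ c : ℝ, SOS (c • wnu F + y) := by
  induction y using Finsupp.induction_linear with
  | zero =>
    refine ⟨0, ?_⟩
    rw [zero_smul, zero_add]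
    exact sos_zero
  | add y z hy hz =>
    obtain ⟨c, h⟩ := hy
    obtain ⟨d, h'⟩ := hz
    refine ⟨c + d, ?_⟩
    have e : (c + d) • wnu F + (y + z) = (c • wnu F + y) + (d • wnu F + z) := by
      rw [add_smul]
      abel
    rw [e]
    exact sos_add h h'
  | single g a =>
    rcases le_or_gt 0 a with ha | ha
    · refine ⟨0, ?_⟩
      have e : (0 : ℝ) • wnu F + Finsupp.single g a = a • Finsupp.single g (1 : ℝ) := by
        rw [zero_smul, zero_add, Finsupp.smul_single, smul_eq_mul, mul_one]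
      rw [e]
      exact sos_smul ha (sos_single g)
    · obtain ⟨c, hc, h⟩ := sos_unit_single hF g
      refine ⟨-a * c, ?_⟩
      have e : (-a * c) • wnu F + Finsupp.single g a =
          (-a) • (c • wnu F - Finsupp.single g (1 : ℝ)) := by
        rw [smul_sub, smul_smul, Finsupp.smul_single, smul_eq_mul, mul_one, Finsupp.single_neg,
          sub_neg_eq_add]
      rw [e]
      exact sos_smul (by linarith) h

end

end Pool.Agent.KZ
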