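import Pool.Agent.KZ.Defs
import Pool.Agent.KZ.Basic
import Pool.Agent.KZ.Cone
import Pool.Agent.KZ.Unit
import Pool.Agent.KZ.Trace

set_option autoImplicit false

/-! KZ-4 Riesz.lean: separation (MP_e3aa4b_al). -/

namespace Pool.Agent.KZ

universe u

open Filter Topology

section Riesz
variable {Γ : Type*} [Group Γ]

/-- the cone generated by the weights SOS and `-w0` -/
def rzCone (w0 : Γ →₀ ℝ) : PointedCone ℝ (Γ →₀ ℝ) where
  carrier := {w | ∃ (k : Γ →₀ ℝ) (c : ℝ), SOS k ∧ 0 ≤ c ∧ w = k - c • w0}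
  add_mem' := by
    rintro a b ⟨k, c, hk, hc, rfl⟩ ⟨k', c', hk', hc', rfl⟩
    refine ⟨k + k', c + c', sos_add hk hk', add_nonneg hc hc', ?_⟩
    rw [add_smul]; abel
  zero_mem' := ⟨0, 0, sos_zero, le_refl _, by simp⟩
  smul_mem' := by
    rintro ⟨r, hr⟩ a ⟨k, c, hk, hc, rfl⟩
    refine ⟨r • k, r * c, sos_smul hr hk, mul_nonneg hr hc, ?_⟩
    show r • (k - c • w0) = r • k - (r * c) • w0
    rw [smul_sub, mul_smul]

theorem rz_mem_of_sos {w0 k : Γ →₀ ℝ} (hk : SOS k) : k ∈ rzCone w0 :=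
  ⟨k, 0, hk, le_refl _, by simp⟩

theorem rz_neg_mem (w0 : Γ →₀ ℝ) : -w0 ∈ rzCone w0 :=
  ⟨0, 1, sos_zero, zero_le_one, by simp⟩

theorem rz_T_one (F : Finset Γ) (l : (Γ →₀ ℝ) →ₗ[ℝ] ℝ) :
    T F (fun g => l (Finsupp.single g 1)) 1 = l (wnu F) := by
  unfold wnu
  rw [T_one, map_smul, map_sum]
  simp only [map_sum, smul_eq_mul]
  ring

theorem rz_B (l : (Γ →₀ ℝ) →ₗ[ℝ] ℝ) (ξ : Γ →₀ ℝ) :
    l ((-(1 / 2) : ℝ) • ξ.sum fun g a => ξ.sum fun h b => Finsupp.single (g⁻¹ * h) (a * b)) =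
      -(1 / 2) * B (fun g => l (Finsupp.single g 1)) ξ ξ := by
  rw [map_smul, smul_eq_mul]
  congr 1
  unfold B
  rw [Finsupp.linearCombination_apply]
  simp only [Finsupp.sum, map_sum, LinearMap.sum_apply, LinearMap.smul_apply, smul_eq_mul,
    Finsupp.linearCombination_apply]
  refine Finset.sum_congr rfl fun g _ => ?_
  rw [Finset.mul_sum]
  refine Finset.sum_congr rfl fun h _ => ?_
  have : Finsupp.single (g⁻¹ * h) (ξ g * ξ h) = (ξ g * ξ h) • Finsupp.single (g⁻¹ * h) (1 : ℝ) := by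
    rw [Finsupp.smul_single, smul_eq_mul, mul_one]
  rw [this, map_smul, smul_eq_mul]
  ring

/-- the separating functional -/
theorem rz_functional {F : Finset Γ} (hF : Good F) (h2 : 2 ≤ F.card) {w0 : Γ →₀ ℝ}
    (h0 : ¬ SOS w0) : ∃ l : (Γ →₀ ℝ) →ₗ[ℝ] ℝ, l (wnu F) = 1 ∧ l w0 ≤ 0 ∧
      ∀ k, SOS k → 0 ≤ l k := by
  have hw : wnu F ≠ 0 := by
    intro h
    have := not_sos_neg_wnu h2 (c := 1) one_pos
    rw [h, smul_zero] at this
    exact this sos_zero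
  set f : (Γ →₀ ℝ) →ₗ.[ℝ] ℝ := LinearPMap.mkSpanSingleton (wnu F) (1 : ℝ) hw with hf
  obtain ⟨l, hl, hl'⟩ := riesz_extension (rzCone w0) f (by
    rintro ⟨x, hx⟩ hxs
    have hx' : x ∈ Submodule.span ℝ {wnu F} := hx
    obtain ⟨a, rfl⟩ := Submodule.mem_span_singleton.1 hx'
    have hv : f ⟨a • wnu F, hx⟩ = a := by
      have h3 := LinearPMap.mkSpanSingleton'_apply (wnu F) (1 : ℝ)
        (fun c hc => (smul_eq_zero.1 hc).elim (fun h => h.symm ▸ zero_smul _ _)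
          (fun h => absurd h hw)) a hx
      refine Eq.trans ?_ (h3.trans (by simp))
      rfl
    rw [hv]
    by_contra hneg
    push Not at hneg
    obtain ⟨k, c, hk, hc, he⟩ := hxs
    change a • wnu F = k - c • w0 at he
    rcases hc.eq_or_lt with hc0 | hc0
    · subst hc0
      rw [zero_smul, sub_zero] at he
      refine not_sos_neg_wnu h2 (c := -a) (by linarith) ?_
      rw [neg_neg, he]; exact hk
    · apply h0
      have hnu : SOS (wnu F) := by
        unfold wnu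
        refine sos_smul (by positivity) (sos_sum _ _ fun s _ => sos_sum _ _ fun t _ => sos_single _)
      have : w0 = c⁻¹ • (k + (-a) • wnu F) := by
        have h5 : c • w0 = k + (-a) • wnu F := by
          rw [neg_smul, he]; abel
        rw [← h5, smul_smul, inv_mul_cancel₀ hc0.ne', one_smul]
      rw [this]
      exact sos_smul (by positivity) (sos_add hk (sos_smul (by linarith) hnu))) (by
    intro y
    obtain ⟨c, hc⟩ := sos_unit hF y
    refine ⟨⟨c • wnu F, Submodule.mem_span_singleton.2 ⟨c, rfl⟩⟩, rz_mem_of_sos hc⟩)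
  refine ⟨l, ?_, ?_, fun k hk => hl' k (rz_mem_of_sos hk)⟩
  · have h1 : f ⟨wnu F, Submodule.mem_span_singleton_self (wnu F)⟩ = 1 :=
      LinearPMap.mkSpanSingleton_apply ℝ ℝ (σ := RingHom.id ℝ) hw (1 : ℝ)
    rw [← h1]
    exact hl ⟨wnu F, Submodule.mem_span_singleton_self (wnu F)⟩
  · have := hl' _ (rz_neg_mem w0)
    rw [map_neg] at this
    linarith

theorem riesz_cnd {F : Finset Γ} (hF : Good F) (h2 : 2 ≤ F.card) {κ : ℝ} (h : ¬ Cert F κ) :
    ∃ ψ : Γ → ℝ, Cnd ψ ∧ (∀ g, 0 ≤ ψ g) ∧ T F ψ 1 = 1 ∧ 2 - κ ≤ T F (T F ψ) 1 := by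
  obtain ⟨w2, hw2, hw2'⟩ := exists_w2 hF
  have h0 : ¬ SOS ((1 / 2 : ℝ) • ((2 - κ) • wnu F - w2)) := by
    rintro ⟨l, hl, hl'⟩
    apply h
    refine ⟨l, hl, fun φ => ?_⟩
    rw [← hl' φ, map_smul, map_sub, map_smul, L_wnu hF, hw2]
    simp only [smul_eq_mul]
    ring
  obtain ⟨l, hl1, hl2, hl3⟩ := rz_functional hF h2 h0
  refine ⟨fun g => l (Finsupp.single g 1), ⟨?_, ?_, ?_⟩, ?_, ?_, ?_⟩
  · have h3 := hl3 _ (sos_single_one (Γ := Γ) 1)
    have h4 := hl3 _ (sos_single_one (Γ := Γ) (-1))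
    have h5 : Finsupp.single (1 : Γ) (-1 : ℝ) = - Finsupp.single (1 : Γ) (1 : ℝ) := by
      rw [← Finsupp.single_neg]
    rw [h5, map_neg] at h4
    show l (Finsupp.single 1 1) = 0
    linarith
  · intro g
    have h3 := hl3 _ (sos_inv g 1)
    have h4 := hl3 _ (sos_inv g⁻¹ 1)
    rw [inv_inv] at h4
    rw [map_sub] at h3 h4
    show l (Finsupp.single g⁻¹ 1) = l (Finsupp.single g 1)
    linarith
  · intro ξ hξ
    have h3 := hl3 _ (sos_form ξ hξ)
    rw [rz_B] at h3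
    linarith
  · intro g
    exact hl3 _ (sos_single g)
  · rw [rz_T_one, hl1]
  · rw [← hw2' l]
    rw [map_smul, map_sub, map_smul, hl1] at hl2
    simp only [smul_eq_mul, mul_one] at hl2
    linarith

end Riesz

end Pool.Agent.KZ
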